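import Mathlib
import Pool.Agent.MP_16e32a_lc.Lower

/-! A lower bound on the input graph itself: hidden rewirings on disjoint vertex sets. -/

set_option autoImplicit false
set_option linter.unusedSectionVars false

open scoped ENNReal Classical
open Finset

noncomputable section

namespace Pool.Agent.MP_16e32a_lc

variable {V α : Type} [Fintype V] [Nonempty V]

lemma pr_le_rev {G0 G : SimpleGraph V} {S : Set V} {M : Set (V × V)} (h : Near G0 G S M)
    (A : Set α) (t : Alg V α) : ∀ q, pr G0 t A q ≤ pr G t A q + bad G0 S M t q := by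
  induction t with
  | ret a => intro q; simp [pr, run, bad]
  | vertex k ih =>
    intro q
    cases q with
    | zero => simp only [pr, run, PMF.toOuterMeasure_bind_apply, tick_zero]; simp
    | succ q =>
      simp only [pr, run, PMF.toOuterMeasure_bind_apply, tick_succ, bad]
      rw [← ENNReal.tsum_add]
      exact ENNReal.tsum_le_tsum fun v => by rw [← mul_add]; exact mul_le_mul_right (ih v q) _
  | degree v k ih =>
    intro q
    cases q with
    | zero => simp only [pr, run, tick_zero]; simp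
    | succ q =>
      simp only [bad]
      split_ifs with hv
      · exact (pr_le_one _ _ _ _).trans (le_add_left le_self_add)
      · simp only [pr, run, tick_succ, (h v hv).1, zero_add]
        exact ih _ q
  | neighbour v k ih =>
    intro q
    cases q with
    | zero => simp only [pr, run, PMF.toOuterMeasure_bind_apply, tick_zero]; simp
    | succ q =>
      simp only [bad]
      split_ifs with hv
      · exact (pr_le_one _ _ _ _).trans (le_add_left le_self_add)
      · simp only [pr, run, PMF.toOuterMeasure_bind_apply, tick_succ, zero_add, tsum_randNbr,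
          (h v hv).1]
        split_ifs with hd h1
        · simp at h1
        · simpa [pr] using ih none q
        · rw [← mul_add]
          refine mul_le_mul_right ?_ _
          have e1 : ∑ w ∈ (G0.neighborFinset v).filter (fun w => (v, w) ∉ M), pr G (k (some w)) A q ≤
              ∑ w ∈ G.neighborFinset v, pr G (k (some w)) A q :=
            sum_le_sum_of_subset fun w hw => by
              rw [mem_filter, SimpleGraph.mem_neighborFinset] at hw
              exact (SimpleGraph.mem_neighborFinset _ _ _).2 ((h v hv).2 w hw.1 hw.2)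
          refine le_trans ?_ (add_le_add e1 le_rfl)
          rw [sum_filter, ← sum_add_distrib]
          refine sum_le_sum fun w _ => ?_
          simp only [Option.some.injEq, exists_eq_left']
          by_cases hM : (v, w) ∈ M
          · simp only [hM, if_true]
            exact (pr_le_one G0 (k (some w)) A q).trans (le_add_left le_self_add)
          · simp only [hM, if_false, not_false_eq_true, if_true, zero_add]
            exact ih (some w) q
  | coin p k ih =>
    intro q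
    simp only [pr, run, PMF.toOuterMeasure_bind_apply, bad]
    rw [← ENNReal.tsum_add]
    exact ENNReal.tsum_le_tsum fun i => by rw [← mul_add]; exact mul_le_mul_right (ih i q) _

lemma pmf_add_le {β : Type} (p : PMF β) {s t : Set β} (h : Disjoint s t) :
    p.toOuterMeasure s + p.toOuterMeasure t ≤ 1 := by
  rw [PMF.toOuterMeasure_apply, PMF.toOuterMeasure_apply, ← ENNReal.tsum_add, ← p.tsum_coe]
  refine ENNReal.tsum_le_tsum fun x => ?_
  by_cases h1 : x ∈ s
  · rw [Set.indicator_of_notMem (Set.disjoint_left.1 h h1), add_zero]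
    exact Set.indicator_le_self _ _ _
  · rw [Set.indicator_of_notMem h1, zero_add]
    exact Set.indicator_le_self _ _ _

theorem adv1 {T : ℕ} (G0 : SimpleGraph V) (G : Fin T → SimpleGraph V) (S : Fin T → Finset V)
    (hS : ∀ v i j, v ∈ S i → v ∈ S j → i = j)
    (hN : ∀ j, Near G0 (G j) (S j) {e | e.2 ∈ S j}) {ε : ℝ}
    (hd : ∀ j f, IsEstimate (G j) ε f → ¬ IsEstimate G0 ε f) (t : Alg V (ℝ → ℝ))
    (ht : ∀ G, Solves t G ε) {E : ℝ} (hE : expectedQueries t G0 ≤ ENNReal.ofReal E) (E0 : 0 ≤ E) :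
    (T : ℝ) ≤ 300 * E := by
  by_contra hc
  push Not at hc
  have hT0 : 0 < T := by
    have : (0 : ℝ) < T := by linarith
    exact_mod_cast this
  have hq : expectedQueries t G0 / ((T / 25 : ℕ) + 1) ≤ 1 / 12 := by
    have h1 : (T : ℝ) ≤ ((T / 25 : ℕ) + 1) * 25 := by
      exact_mod_cast (show T ≤ (T / 25 + 1) * 25 by omega)
    rw [ENNReal.div_le_iff (by simp) (by simp)]
    refine hE.trans ?_
    have : (1 / 12 : ℝ≥0∞) * ((T / 25 : ℕ) + 1) =
        ENNReal.ofReal (1 / 12 * ((T / 25 : ℕ) + 1)) := by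
      rw [ENNReal.ofReal_mul (by norm_num), ENNReal.ofReal_div_of_pos (by norm_num),
        ENNReal.ofReal_add (by positivity) (by norm_num)]
      simp
    rw [this]
    exact ENNReal.ofReal_le_ofReal (by linarith)
  have hb : ∀ j, (1 : ℝ≥0∞) ≤ 12 * bad G0 (S j) {e | e.2 ∈ S j} t (T / 25) := by
    intro j
    have h1 : 2 / 3 ≤ pr (G j) t {f | IsEstimate G0 ε f} (T / 25) +
        bad G0 (S j) {e | e.2 ∈ S j} t (T / 25) + 1 / 12 :=
      (ht G0).trans ((markov _ {f | IsEstimate G0 ε f} (T / 25)).trans (add_le_add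
        (pr_le_rev (hN j) _ t _) hq))
    have h2 := ht (G j)
    have h3 := pmf_add_le (run (G j) t) (s := {x | x.1 ∈ {f | IsEstimate G0 ε f} ∧ x.2 ≤ T / 25})
      (t := {x | IsEstimate (G j) ε x.1}) (Set.disjoint_left.2 fun x a b => hd j _ b a.1)
    unfold Solves at h2
    change pr (G j) t {f | IsEstimate G0 ε f} (T / 25) + _ ≤ 1 at h3
    generalize bad G0 (S j) {e | e.2 ∈ S j} t (T / 25) = b at *
    generalize pr (G j) t {f | IsEstimate G0 ε f} (T / 25) = x at *
    generalize (run (G j) t).toOuterMeasure {x | IsEstimate (G j) ε x.1} = y at *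
    rcases eq_or_ne b ⊤ with rfl | hb
    · simp
    lift b to NNReal using hb
    lift x to NNReal using ne_top_of_le_ne_top ENNReal.one_ne_top (le_self_add.trans h3)
    lift y to NNReal using ne_top_of_le_ne_top ENNReal.one_ne_top (le_add_self.trans h3)
    have e1 : (2 / 3 : ℝ≥0∞) = ((2 / 3 : NNReal) : ℝ≥0∞) := by
      rw [ENNReal.coe_div (by simp)]; simp
    have e2 : (1 / 12 : ℝ≥0∞) = ((1 / 12 : NNReal) : ℝ≥0∞) := by
      rw [ENNReal.coe_div (by simp)]; simp
    rw [e1] at h1 h2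
    rw [e2] at h1
    norm_cast at h1 h2 h3 ⊢
    rw [← NNReal.coe_le_coe] at h1 h2 h3 ⊢
    push_cast at h1 h2 h3 ⊢
    linarith
  have h1 := sum_le_sum fun j (_ : j ∈ univ) => hb j
  rw [← mul_sum, sum_const, card_univ, nsmul_eq_mul, mul_one, Fintype.card_fin] at h1
  have h2 := h1.trans (mul_le_mul_right (sum_bad_le G0 (fun j => (S j : Set V))
    (fun j => {e | e.2 ∈ S j}) hS (fun e => hS e.2) t (T / 25)) _)
  have h3 : T ≤ 12 * (2 * (T / 25)) := by exact_mod_cast h2
  omega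

lemma rewire {κ : Type} [Fintype κ] (G : SimpleGraph V) (S : Finset V) (W : κ → Finset V)
    (s : κ → V) (hW : ∀ i, W i ⊆ S) (hs : ∀ i, s i ∈ W i)
    (hd : ∀ v i j, v ∈ W i → v ∈ W j → i = j) :
    ∃ G' : SimpleGraph V, Near G G' S {e | e.2 ∈ S} ∧ (∀ x ∈ S, ∀ y ∈ S, x ≠ y → G'.Adj x y) ∧
      ∀ i v, v ≠ s i → (∃ w ∈ W i, G.Adj v w) → G'.Adj (s i) v := by
  have key : ∀ v, ∃ R : Finset V, R ⊆ S ∧ R.card = (S.filter (G.Adj v)).card ∧
      ∀ i, (∃ w ∈ W i, G.Adj v w) → s i ∈ R := by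
    intro v
    have h1 : ((univ.filter fun i => ∃ w ∈ W i, G.Adj v w).image s).card ≤
        (S.filter (G.Adj v)).card := by
      refine card_image_le.trans (card_le_card_of_forall_subsingleton (fun i w => w ∈ W i) ?_ ?_)
      · intro i hi
        obtain ⟨w, w1, w2⟩ := (mem_filter.1 hi).2
        exact ⟨w, mem_filter.2 ⟨hW i w1, w2⟩, w1⟩
      · intro w _ i hi j hj
        exact hd w i j hi.2 hj.2
    obtain ⟨R, r1, r2, r3⟩ := exists_subsuperset_card_eq (t := S)
      (fun x hx => by obtain ⟨i, -, rfl⟩ := mem_image.1 hx; exact hW i (hs i)) h1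
      (card_filter_le _ _)
    exact ⟨R, r2, r3, fun i hi => r1 (mem_image_of_mem _ (mem_filter.2 ⟨mem_univ _, hi⟩))⟩
  choose R r1 r2 r3 using key
  obtain ⟨G', hG⟩ : ∃ G' : SimpleGraph V, ∀ x y, G'.Adj x y ↔ x ≠ y ∧ ((x ∈ S ∧ y ∈ S) ∨
      (x ∉ S ∧ y ∉ S ∧ G.Adj x y) ∨ (x ∉ S ∧ y ∈ R x) ∨ (y ∉ S ∧ x ∈ R y)) :=
    ⟨{ Adj := fun x y => x ≠ y ∧ ((x ∈ S ∧ y ∈ S) ∨ (x ∉ S ∧ y ∉ S ∧ G.Adj x y) ∨
        (x ∉ S ∧ y ∈ R x) ∨ (y ∉ S ∧ x ∈ R y))
       symm := ⟨fun x y h => ⟨h.1.symm, by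
        rcases h.2 with h | h | h | h
        · exact Or.inl h.symm
        · exact Or.inr (Or.inl ⟨h.2.1, h.1, h.2.2.symm⟩)
        · exact Or.inr (Or.inr (Or.inr h))
        · exact Or.inr (Or.inr (Or.inl h))⟩⟩
       loopless := ⟨fun x h => h.1 rfl⟩ }, fun _ _ => Iff.rfl⟩
  refine ⟨G', fun v hv => ⟨?_, fun w hw hM => (hG _ _).2 ⟨hw.ne, Or.inr (Or.inl ⟨hv, hM, hw⟩)⟩⟩,
    fun x hx y hy h => (hG _ _).2 ⟨h, Or.inl ⟨hx, hy⟩⟩, fun i v h1 h2 => (hG _ _).2 ⟨h1.symm, ?_⟩⟩
  · have hv : v ∉ S := hv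
    have e1 : G'.neighborFinset v = (G.neighborFinset v).filter (· ∉ S) ∪ R v := by
      ext w
      simp only [SimpleGraph.mem_neighborFinset, mem_union, mem_filter, hG]
      constructor
      · rintro ⟨-, h | h | h | h⟩
        · exact absurd h.1 hv
        · exact Or.inl ⟨h.2.2, h.2.1⟩
        · exact Or.inr h.2
        · exact absurd (r1 _ h.2) hv
      · rintro (h | h)
        · exact ⟨h.1.ne, Or.inr (Or.inl ⟨hv, h.2, h.1⟩)⟩
        · exact ⟨fun e => hv (e ▸ r1 _ h), Or.inr (Or.inr (Or.inl ⟨hv, h⟩))⟩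
    have e2 : S.filter (G.Adj v) = (G.neighborFinset v).filter (· ∈ S) := by
      ext w; simp [and_comm]
    have e3 : Disjoint ((G.neighborFinset v).filter (· ∉ S)) (R v) :=
      disjoint_left.2 fun w a b => by
        rw [mem_filter] at a
        exact a.2 (r1 _ b)
    rw [← SimpleGraph.card_neighborFinset_eq_degree, ← SimpleGraph.card_neighborFinset_eq_degree,
      e1, card_union_of_disjoint e3, r2, e2, add_comm, card_filter_add_card_filter_not]
  · by_cases hv : v ∈ S
    · exact Or.inl ⟨hW i (hs i), hv⟩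
    · exact Or.inr (Or.inr (Or.inr ⟨hv, r3 v i h2⟩))

lemma apart {G G' : SimpleGraph V} {β ε y : ℝ} (b1 : β ≤ 1) (e0 : 0 ≤ ε) (hε : 3 * ε ≤ β)
    (hy : 0 ≤ y) (h : 2 * ccdh G y + 1 ≤ ccdh G' ((1 + β) * y)) (f : ℝ → ℝ)
    (h1 : IsEstimate G' ε f) : ¬ IsEstimate G ε f := by
  intro h2
  have p : 0 < 1 + ε := by linarith
  have z0 : 0 ≤ (1 + β) * y / (1 + ε) := div_nonneg (mul_nonneg (by linarith) hy) p.le
  have e1 := (h1 _ z0).1.trans (h2 _ z0).2
  rw [mul_div_cancel₀ _ p.ne'] at e1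
  have e2 : (ccdh G ((1 - ε) * ((1 + β) * y / (1 + ε))) : ℝ) ≤ ccdh G y := by
    refine Nat.cast_le.2 (ccdh_anti G ?_)
    rw [← mul_div_assoc, le_div_iff₀ p]
    nlinarith [mul_nonneg hy (show 0 ≤ (1 - ε) * (1 + β) - (1 + ε) by nlinarith)]
  have e3 : 2 * (ccdh G y : ℝ) + 1 ≤ ccdh G' ((1 + β) * y) := by exact_mod_cast h
  have e4 : (0 : ℝ) ≤ ccdh G y := Nat.cast_nonneg _
  nlinarith

lemma family (P : Finset V → Prop) (e : Finset V → ℝ) {c E0 : ℝ} (c0 : 0 ≤ c)
    (h : ∀ L, E0 ≤ e L → ∃ W ⊆ L, P W ∧ e L ≤ e (L \ W) + c) :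
    ∀ (K : ℕ) (L : Finset V), E0 + K * c ≤ e L + c → ∃ W : Fin K → Finset V,
      (∀ i, W i ⊆ L ∧ P (W i)) ∧ ∀ v i j, v ∈ W i → v ∈ W j → i = j := by
  intro K
  induction K with
  | zero => exact fun L _ => ⟨Fin.elim0, fun i => i.elim0, fun _ i => i.elim0⟩
  | succ K ih =>
    intro L hL
    push_cast at hL
    obtain ⟨W0, w1, w2, w3⟩ := h L (by nlinarith [mul_nonneg (Nat.cast_nonneg (α := ℝ) K) c0])
    obtain ⟨W, a1, a2⟩ := ih (L \ W0) (by linarith)
    refine ⟨Fin.cons W0 W, fun i => ?_, fun v i j => ?_⟩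
    · refine Fin.cases ⟨w1, w2⟩ (fun i => ⟨(a1 i).1.trans sdiff_subset, (a1 i).2⟩) i
    · refine Fin.cases ?_ (fun i => ?_) i <;> refine Fin.cases ?_ (fun j => ?_) j <;>
        simp only [Fin.cons_zero, Fin.cons_succ] <;> intro h1 h2
      · trivial
      · exact absurd h1 (mem_sdiff.1 ((a1 j).1 h2)).2
      · exact absurd h2 (mem_sdiff.1 ((a1 i).1 h1)).2
      · rw [a2 v i j h1 h2]

end Pool.Agent.MP_16e32a_lc
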