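import Mathlib
import Pool.Agent.MP_16e32a_lc.Defs

/-! Algorithms that do not name vertices, and the instance measure. -/

set_option autoImplicit false

open scoped Classical

noncomputable section

namespace Pool.Agent.MP_16e32a_lc

/-- Every degree or neighbour query is about a vertex of `s` or one returned by an earlier query. -/
def Fair {V α : Type} : Alg V α → Set V → Prop
  | .ret _, _ => True
  | .vertex k, s => ∀ v, Fair (k v) (insert v s)
  | .degree v k, s => v ∈ s ∧ ∀ d, Fair (k d) s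
  | .neighbour v k, s => v ∈ s ∧ ∀ o, Fair (k o) (s ∪ {w | o = some w})
  | .coin _ k, s => ∀ i, Fair (k i) s

/-- `n/(h+1)` plus the supremum of `d N(d) / (y (N(y)+1))` over `y ≥ (h+1)/4` and
`N(d) ≥ (1+η)² y`. -/
def inst {V : Type} [Fintype V] (G : SimpleGraph V) (η : ℝ) : ℝ :=
  (Fintype.card V : ℝ) / (hIndex G + 1) + sSup {z : ℝ | ∃ (d : ℕ) (y : ℝ),
    ((hIndex G : ℝ) + 1) / 4 ≤ y ∧ (1 + η) ^ 2 * y ≤ ccdh G d ∧
      z = d * ccdh G d / (y * (ccdh G y + 1))}

end Pool.Agent.MP_16e32a_lc
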