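import Pool.Agent.MP_16e32a_lc.h38.Adv

/-! Estimators: vertex sampling, and edge sampling from the vertices of small degree. -/

set_option autoImplicit false
set_option linter.unusedSectionVars false

open scoped ENNReal Classical
open Finset

noncomputable section

namespace Pool.Agent.MP_16e32a_lc

variable {V α : Type} [Fintype V] [Nonempty V] (G : SimpleGraph V)

lemma ex_cadd (t : Alg V ℝ) (c : ℝ) : ex G t (fun a => c + a) = c + ex G t fun a => a := by
  rw [ex_add G t (fun _ => c) (fun a => a), ex_const]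

lemma ex_cmul (t : Alg V ℝ) (c : ℝ) : ex G t (fun a => c * a) = c * ex G t fun a => a :=
  ex_mul G t c _

/-- the sum of `r` independent runs -/
def rp (b : Alg V ℝ) : ℕ → Alg V ℝ
  | 0 => .ret 0
  | r + 1 => b.bind fun y => (rp b r).bind fun s => .ret (y + s)

lemma NoCoin.rp {b : Alg V ℝ} (hb : NoCoin b) : ∀ r, NoCoin (rp b r)
  | 0 => trivial
  | r + 1 => hb.bind fun _ => (NoCoin.rp hb r).bind fun _ => trivial

lemma ecost_rp (b : Alg V ℝ) : ∀ r : ℕ, ecost G (rp b r) = r * ecost G b
  | 0 => by simp [rp, ecost]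
  | r + 1 => by
    simp only [rp, ecost_bind, ecost, ex_const, ecost_rp b r]
    push_cast; ring

lemma ex_rp (b : Alg V ℝ) : ∀ r : ℕ, ex G (rp b r) (fun s => s) = r * ex G b fun y => y
  | 0 => by simp [rp, ex]
  | r + 1 => by
    simp only [rp, ex_bind, ex, ex_cadd, ex_add, ex_const, ex_rp b r]
    push_cast; ring

lemma ex_rp_sq (b : Alg V ℝ) : ∀ r : ℕ, ex G (rp b r) (fun s => s ^ 2) =
    r * (ex G b fun y => y ^ 2) + r * (r - 1) * (ex G b fun y => y) ^ 2
  | 0 => by simp [rp, ex]
  | r + 1 => by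
    simp only [rp, ex_bind, ex, add_sq, ex_add, ex_const, ex_cmul, ex_rp_sq b r, ex_rp]
    have : ∀ c : ℝ, (ex G b fun a => 2 * a * c) = 2 * c * ex G b fun a => a := fun c => by
      rw [← ex_mul]; congr 1; funext a; ring
    rw [this]
    push_cast; ring

def est (b : Alg V ℝ) (r : ℕ) : Alg V ℝ :=
  (rp b r).bind fun s => .ret (Fintype.card V / r * s)

lemma NoCoin.est {b : Alg V ℝ} (hb : NoCoin b) (r : ℕ) : NoCoin (est b r) :=
  (hb.rp r).bind fun _ => trivial

lemma ecost_est (b : Alg V ℝ) (r : ℕ) : ecost G (est b r) = r * ecost G b := by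
  simp only [est, ecost_bind, ecost, ex_const, ecost_rp, add_zero]

lemma cheb (b : Alg V ℝ) {Q s τ : ℝ} {r : ℕ} (hr : 0 < r) (hτ : 0 < τ)
    (h1 : ex G b (fun y => y) = Q / Fintype.card V)
    (h2 : ex G b (fun y => y ^ 2) ≤ s / Fintype.card V) :
    ex G (est b r) (fun Y => if |Y - Q| ≤ τ then 0 else 1) ≤ Fintype.card V * s / (r * τ ^ 2) := by
  have hr0 : (0 : ℝ) < r := by exact_mod_cast hr
  have hn : (0 : ℝ) < Fintype.card V := by exact_mod_cast Fintype.card_pos
  simp only [est, ex_bind, ex]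
  generalize (Fintype.card V : ℝ) = n at *
  have hv : ex G (rp b r) (fun s => (n / r * s - Q) ^ 2) ≤ n * s / r := by
    have e : (fun s : ℝ => (n / r * s - Q) ^ 2) =
        fun s => (n / r) ^ 2 * s ^ 2 + (-(2 * (n / r) * Q) * s + Q ^ 2) := by
      funext s; ring
    rw [e, ex_add, ex_add, ex_mul, ex_mul, ex_const, ex_rp, ex_rp_sq, h1]
    calc _ ≤ (n / r) ^ 2 * (r * (s / n) + r * r * (Q / n) ^ 2) +
          (-(2 * (n / r) * Q) * (r * (Q / n)) + Q ^ 2) := by
          gcongr
          linarith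
      _ = _ := by field_simp; ring
  calc _ ≤ ex G (rp b r) (fun s => 1 / τ ^ 2 * (n / r * s - Q) ^ 2) := by
        refine ex_mono G _ fun s => ?_
        split_ifs with h
        · positivity
        · rw [one_div, ← div_eq_inv_mul, le_div_iff₀ (by positivity), one_mul,
            ← sq_abs (n / r * s - Q)]
          exact pow_le_pow_left₀ (by positivity) (not_le.1 h).le 2
    _ ≤ 1 / τ ^ 2 * (n * s / r) := by rw [ex_mul]; gcongr
    _ = _ := by field_simp

lemma ccdh_sum (x : ℝ) : (ccdh G x : ℝ) = ∑ v, if x ≤ (G.degree v : ℝ) then 1 else 0 := by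
  rw [ccdh, card_filter]; push_cast; rfl

def dblk (x : ℝ) : Alg V ℝ := .vertex fun u => .degree u fun D => .ret (if x ≤ D then 1 else 0)

lemma noCoin_dblk (x : ℝ) : NoCoin (dblk (V := V) x) := fun _ _ => trivial

lemma ecost_dblk (x : ℝ) : ecost G (dblk x) = 2 := by
  simp only [dblk, ecost, add_zero, avg_const (univ_nonempty (α := V))]; norm_num

lemma var_le {N φ γ c n r : ℝ} (hN : 0 ≤ N) (hφ : 0 < φ) (hγ : 0 < γ) (hr : 0 < r) (hn : 0 ≤ n)
    (hc : 0 ≤ c) : n * (c * (φ + N) * N) / (r * (γ * max N φ) ^ 2) ≤ 2 * n * c / (r * γ ^ 2) := by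
  have h1 := le_max_left N φ
  have h2 := le_max_right N φ
  generalize max N φ = m at *
  have m0 : 0 < m := by linarith
  rw [div_le_div_iff₀ (by positivity) (by positivity)]
  have : (φ + N) * N ≤ 2 * m ^ 2 := by nlinarith
  nlinarith [mul_le_mul_of_nonneg_left this (show 0 ≤ n * c * (r * γ ^ 2) by positivity)]

lemma dir_cheb (x : ℝ) {φ γ : ℝ} {r : ℕ} (hr : 0 < r) (hφ : 0 < φ) (hγ : 0 < γ) :
    ex G (est (dblk x) r) (fun Y => if |Y - ccdh G x| ≤ γ * max (ccdh G x : ℝ) φ then 0 else 1) ≤
      2 * Fintype.card V * (1 / φ) / (r * γ ^ 2) := by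
  have h0 : (0 : ℝ) ≤ ccdh G x := Nat.cast_nonneg _
  refine (cheb G _ (s := 1 / φ * (φ + ccdh G x) * ccdh G x) hr (by positivity) ?_ ?_).trans
    (var_le h0 hφ hγ (by exact_mod_cast hr) (Nat.cast_nonneg _) (by positivity))
  · simp only [dblk, ex, avg, card_univ, ccdh_sum]
  · simp only [dblk, ex, avg, card_univ, ite_pow, one_pow, ne_eq, OfNat.ofNat_ne_zero,
      not_false_eq_true, zero_pow, ← ccdh_sum]
    gcongr
    refine le_mul_of_one_le_left h0 ?_
    rw [one_div, ← div_eq_inv_mul, le_div_iff₀ hφ]; linarith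

/-- the number of trials until a neighbour of degree at most `θ` is seen, cut off at `L` -/
def geo (θ : ℕ) (u : V) : ℕ → Alg V ℝ
  | 0 => .ret 0
  | L + 1 => .neighbour u fun o => o.elim (.ret 1) fun w => .degree w fun D =>
      if D ≤ θ then .ret 1 else (geo θ u L).bind fun g => .ret (g + 1)

lemma noCoin_geo (θ : ℕ) (u : V) : ∀ L, NoCoin (geo θ u L)
  | 0 => trivial
  | L + 1 => fun o => by
    cases o with
    | none => trivial
    | some w =>
      intro D
      simp only
      split_ifs
      · trivial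
      · exact (noCoin_geo θ u L).bind fun _ => trivial

lemma geo_mono (θ : ℕ) (u : V) : ∀ (L : ℕ) (f g : ℝ → ℝ), (∀ a : ℝ, 0 ≤ a → a ≤ L → f a ≤ g a) →
    ex G (geo θ u L) f ≤ ex G (geo θ u L) g
  | 0, f, g, h => h 0 le_rfl (by simp)
  | L + 1, f, g, h => by
    have h1 := h 1 zero_le_one (by simp)
    refine avg_mono _ fun o _ => ?_
    cases o with
    | none => exact h1
    | some w =>
      simp only [Option.elim, ex]
      split_ifs
      · exact h1
      · rw [ex_bind, ex_bind]
        exact geo_mono θ u L _ _ fun a a0 a1 => h _ (by linarith) (by push_cast; linarith)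

lemma ecost_geo (θ : ℕ) (u : V) : ∀ L : ℕ, ecost G (geo θ u L) ≤ 2 * L
  | 0 => by simp [geo, ecost]
  | L + 1 => by
    have h := ecost_geo θ u L
    have h0 : (0 : ℝ) ≤ L := Nat.cast_nonneg _
    have : avg (nbrs G u) (fun o => ecost G (o.elim (.ret 1) fun w => .degree w fun D =>
        if D ≤ θ then .ret 1 else (geo θ u L).bind fun g => .ret (g + 1) : Alg V ℝ)) ≤
        1 + 2 * L := by
      refine (avg_mono _ fun o _ => ?_).trans (avg_const (nbrs_nonempty G u) _).le
      cases o with
      | none => simp only [Option.elim, ecost]; linarith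
      | some w =>
        simp only [Option.elim, ecost]
        split_ifs
        · simp only [ecost]; linarith
        · simp only [ecost_bind, ecost, ex_const]; linarith
    simp only [geo, ecost]
    push_cast; linarith

/-- the number of neighbours of degree at most `θ` -/
def dR (θ : ℕ) (u : V) : ℕ := ((G.neighborFinset u).filter fun w => G.degree w ≤ θ).card

lemma ex_geo (θ : ℕ) {u : V} (hu : G.degree u ≠ 0) : ∀ L : ℕ,
    dR G θ u / G.degree u * ex G (geo θ u L) (fun g => g) = 1 - (1 - dR G θ u / G.degree u) ^ L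
  | 0 => by simp [geo, ex]
  | L + 1 => by
    have h := ex_geo θ hu L
    have D0 : (G.degree u : ℝ) ≠ 0 := by exact_mod_cast hu
    have e : ex G (geo θ u (L + 1)) (fun g => g) =
        1 + (1 - dR G θ u / G.degree u) * ex G (geo θ u L) (fun g => g) := by
      simp only [geo, ex, nbrs, if_neg hu, avg, sum_map, card_map, Function.Embedding.some_apply,
        Option.elim, SimpleGraph.card_neighborFinset_eq_degree]
      have : ∀ w, ex G (if G.degree w ≤ θ then Alg.ret 1 else (geo θ u L).bind fun g =>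
          Alg.ret (g + 1)) (fun g => g) = 1 + ex G (geo θ u L) (fun g => g) -
          ex G (geo θ u L) (fun g => g) * if G.degree w ≤ θ then 1 else 0 := fun w => by
        split_ifs
        · simp [ex]
        · simp only [ex_bind, ex, ex_add, ex_const]; ring
      simp only [this, sum_sub_distrib, ← mul_sum, sum_const, sum_boole, nsmul_eq_mul,
        SimpleGraph.card_neighborFinset_eq_degree]
      unfold dR
      field_simp
      ring
    rw [e, pow_succ]
    linear_combination (1 - dR G θ u / G.degree u : ℝ) * h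

def stp (x : ℝ) (θ L : ℕ) (v : V) : Alg V ℝ := .neighbour v fun o => o.elim (.ret 0) fun u =>
  .degree u fun D => if x ≤ D then (geo θ u L).bind fun g => .ret (1 / D * g) else .ret 0

def aw (x : ℝ) (θ L : ℕ) (u : V) : ℝ :=
  if x ≤ G.degree u then 1 / G.degree u * ex G (geo θ u L) (fun g => g) else 0

def ww (x : ℝ) (θ L : ℕ) (v : V) : ℝ := ∑ u ∈ G.neighborFinset v, aw G x θ L u

variable {x : ℝ} {θ L : ℕ}

lemma noCoin_stp (v : V) : NoCoin (stp x θ L v) := fun o => by
  cases o with
  | none => trivial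
  | some w =>
    intro D
    simp only
    split_ifs
    · exact (noCoin_geo θ w L).bind fun _ => trivial
    · trivial

lemma geo_bd (u : V) : 0 ≤ ex G (geo θ u L) (fun g => g) ∧ ex G (geo θ u L) (fun g => g) ≤ L :=
  ⟨(ex_const G _ 0).ge.trans (geo_mono G θ u L _ _ fun _ a _ => a),
    (geo_mono G θ u L _ _ fun _ _ a => a).trans (ex_const G _ _).le⟩

lemma aw_nonneg (u : V) : 0 ≤ aw G x θ L u := by
  have := (geo_bd G (θ := θ) (L := L) u).1
  unfold aw; split_ifs <;> positivity

lemma ww_nonneg (v : V) : 0 ≤ ww G x θ L v := sum_nonneg fun u _ => aw_nonneg G u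

lemma ww_le (hx : 0 < x) (v : V) : ww G x θ L v ≤ L / x * ccdh G x := by
  rw [ccdh_sum, mul_sum]
  refine (sum_le_sum_of_subset_of_nonneg (subset_univ _) fun w _ _ => aw_nonneg G w).trans
    (sum_le_sum fun w _ => ?_)
  have := geo_bd G (θ := θ) (L := L) w
  unfold aw
  split_ifs with h
  · rw [mul_one, div_eq_inv_mul (L : ℝ), one_div]
    have := this.1
    gcongr
    exact (geo_bd G w).2
  · simp

lemma ex_stp (v : V) : ex G (stp x θ L v) (fun y => y) = ww G x θ L v / G.degree v := by
  refine (avg_nbrs G v _ rfl).trans ?_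
  congr 1
  refine sum_congr rfl fun u _ => ?_
  simp only [Option.elim, ex, aw]
  split_ifs
  · simp only [ex_bind, ex, ex_cmul]
  · rfl

lemma ex_stp_sq (hx : 0 < x) (v : V) :
    ex G (stp x θ L v) (fun y => y ^ 2) ≤ L / x * (ww G x θ L v / G.degree v) := by
  rw [← ex_stp, ← ex_mul]
  refine avg_mono _ fun o _ => ?_
  cases o with
  | none => simp [ex]
  | some u =>
    simp only [Option.elim, ex]
    split_ifs with h
    · simp only [ex_bind, ex]
      refine geo_mono G θ u L _ _ fun a a0 a1 => ?_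
      have : 0 < (G.degree u : ℝ) := by linarith
      rw [sq]
      refine mul_le_mul_of_nonneg_right ?_ (by positivity)
      rw [one_div, div_eq_inv_mul]
      gcongr
    · simp [ex]

lemma ecost_stp (v : V) : ecost G (stp x θ L v) ≤ 2 + 2 * L := by
  have h0 : (0 : ℝ) ≤ L := Nat.cast_nonneg _
  have : avg (nbrs G v) (fun o => ecost G (o.elim (.ret 0) fun u => .degree u fun D =>
      if x ≤ D then (geo θ u L).bind fun g => .ret (1 / D * g) else .ret 0 : Alg V ℝ)) ≤
      1 + 2 * L := by
    refine (avg_mono _ fun o _ => ?_).trans (avg_const (nbrs_nonempty G v) _).le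
    cases o with
    | none => simp only [Option.elim, ecost]; linarith
    | some w =>
      simp only [Option.elim, ecost]
      split_ifs
      · simp only [ecost_bind, ecost, ex_const]; linarith [ecost_geo G θ w L]
      · simp only [ecost]; linarith
  simp only [stp, ecost]
  linarith

def eblk (x : ℝ) (θ L : ℕ) (φ : ℝ) : Alg V ℝ := .vertex fun v => .degree v fun D =>
  if D ≤ θ then (rp (stp x θ L v) (tt φ D)).bind fun S => .ret (D / tt φ D * S) else .ret 0

def QQ (x : ℝ) (θ L : ℕ) : ℝ := ∑ v, if G.degree v ≤ θ then ww G x θ L v else 0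

def mR (θ : ℕ) : ℝ := ∑ v, if G.degree v ≤ θ then (G.degree v : ℝ) else 0

variable {φ : ℝ}

lemma noCoin_eblk : NoCoin (eblk (V := V) x θ L φ) := fun v D => by
  simp only
  split_ifs
  · exact ((noCoin_stp v).rp _).bind fun _ => trivial
  · trivial

lemma ww_zero {v : V} (h : G.degree v = 0) : ww G x θ L v = 0 := by
  have : G.neighborFinset v = ∅ := card_eq_zero.1 h
  simp [ww, this]

lemma ex_eblk (hφ : 0 < φ) : ex G (eblk x θ L φ) (fun y => y) = QQ G x θ L / Fintype.card V := by
  simp only [eblk, ex, avg, card_univ, QQ]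
  congr 1
  refine sum_congr rfl fun v _ => ?_
  split_ifs
  · simp only [ex_bind, ex, ex_cmul, ex_rp, ex_stp]
    by_cases h0 : G.degree v = 0
    · simp [ww_zero G h0]
    · have h1 := tt_pos hφ h0
      have h2 : (G.degree v : ℝ) ≠ 0 := by exact_mod_cast h0
      field_simp
  · rfl

lemma ex_eblk_sq (hx : 0 < x) (hφ : 0 < φ) : ex G (eblk x θ L φ) (fun y => y ^ 2) ≤
    L / x * (φ + ccdh G x) * QQ G x θ L / Fintype.card V := by
  simp only [eblk, ex, avg, card_univ, QQ, mul_sum]
  gcongr with v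
  split_ifs
  · simp only [ex_bind, ex, mul_pow, ex_mul, ex_rp_sq, ex_stp]
    by_cases h0 : G.degree v = 0
    · simp [h0, ww_zero G h0]
    have t0 := tt_pos hφ h0
    have D0 : (0 : ℝ) < G.degree v := by exact_mod_cast Nat.pos_of_ne_zero h0
    have ht : (G.degree v : ℝ) / tt φ (G.degree v) ≤ φ := by
      rw [div_le_comm₀ t0 hφ]
      exact Nat.le_ceil _
    have hw := ww_nonneg G (x := x) (θ := θ) (L := L) v
    have hw' := ww_le G (θ := θ) (L := L) hx v
    have hs := ex_stp_sq G (θ := θ) (L := L) hx v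
    have c0 : (0 : ℝ) ≤ L / x := by positivity
    generalize (tt φ (G.degree v) : ℝ) = t at *
    generalize (G.degree v : ℝ) = D at *
    generalize ww G x θ L v = w at *
    generalize (ex G (stp x θ L v) fun y => y ^ 2) = s at *
    generalize (L : ℝ) / x = c at *
    calc (D / t) ^ 2 * (t * s + t * (t - 1) * (w / D) ^ 2)
        ≤ (D / t) ^ 2 * (t * (c * (w / D)) + t * t * (w / D) ^ 2) := by
          gcongr
          linarith
      _ = D / t * (c * w) + w * w := by field_simp
      _ ≤ φ * (c * w) + c * ccdh G x * w := by gcongr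
      _ = _ := by ring
  · simp [ex]

lemma ecost_eblk (hφ : 0 < φ) : ecost G (eblk x θ L φ) ≤
    2 + (2 + 2 * L) * (1 + mR G θ / (Fintype.card V * φ)) := by
  have hn : (0 : ℝ) < Fintype.card V := by exact_mod_cast Fintype.card_pos
  simp only [eblk, ecost]
  have h1 : ∀ v, 1 + ecost G (if G.degree v ≤ θ then (rp (stp x θ L v) (tt φ (G.degree v))).bind
      fun S => .ret (G.degree v / tt φ (G.degree v) * S) else .ret 0) ≤ (1 + (2 + 2 * L)) +
      (2 + 2 * L) / φ * if G.degree v ≤ θ then (G.degree v : ℝ) else 0 := by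
    intro v
    split_ifs
    · simp only [ecost_bind, ecost, ex_const, ecost_rp, add_zero]
      have h2 : (tt φ (G.degree v) : ℝ) ≤ G.degree v / φ + 1 :=
        (Nat.ceil_lt_add_one (by positivity)).le
      have h3 := mul_le_mul h2 (ecost_stp G (x := x) (θ := θ) (L := L) v) (ecost_nonneg G _)
        (by positivity)
      have : (G.degree v / φ + 1) * (2 + 2 * L : ℝ) = (2 + 2 * L) + (2 + 2 * L) / φ * G.degree v := by
        ring
      linarith
    · simp only [ecost, mul_zero, add_zero]
      linarith [Nat.cast_nonneg (α := ℝ) L]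
  have h2 := avg_mono univ fun v _ => h1 v
  rw [avg_add _ (fun _ => 1 + (2 + 2 * (L : ℝ))), avg_const univ_nonempty, avg_mul,
    show avg univ (fun v => if G.degree v ≤ θ then (G.degree v : ℝ) else 0) =
      mR G θ / Fintype.card V from rfl] at h2
  have : (2 + 2 * L) / φ * (mR G θ / Fintype.card V) =
      (2 + 2 * L) * (mR G θ / (Fintype.card V * φ)) := by field_simp
  linarith

lemma QQ_eq (hx : 0 < x) : QQ G x θ L =
    ∑ u, if x ≤ G.degree u then 1 - (1 - dR G θ u / G.degree u : ℝ) ^ L else 0 := by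
  have e : QQ G x θ L = ∑ v, ∑ u, if G.Adj u v ∧ G.degree v ≤ θ then aw G x θ L u else 0 := by
    refine sum_congr rfl fun v _ => ?_
    simp only [ww, SimpleGraph.neighborFinset_eq_filter, sum_filter, G.adj_comm v]
    split_ifs with h <;> simp [h]
  rw [e, sum_comm]
  refine sum_congr rfl fun u _ => ?_
  rw [← sum_filter, sum_const, nsmul_eq_mul]
  have : (univ.filter fun v => G.Adj u v ∧ G.degree v ≤ θ).card = dR G θ u := by
    rw [dR, SimpleGraph.neighborFinset_eq_filter, filter_filter]
  rw [this, aw]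
  split_ifs with h
  · rw [← ex_geo G θ (u := u) (fun h0 => by rw [h0] at h; simp at h; linarith) L]; ring
  · simp

lemma QQ_bd {β : ℝ} (hx : 0 < x) (b0 : 0 < β) (b1 : β ≤ 1) (hL : 2 ≤ β ^ 2 * L)
    (h : (1 + β) * ccdh G (θ + 1) ≤ x) :
    (1 - β) * ccdh G x ≤ QQ G x θ L ∧ QQ G x θ L ≤ ccdh G x := by
  have key : ∀ u, x ≤ G.degree u → 0 ≤ (1 - dR G θ u / G.degree u : ℝ) ^ L ∧
      (1 - dR G θ u / G.degree u : ℝ) ^ L ≤ β := by
    intro u hu
    have D0 : (0 : ℝ) < G.degree u := by linarith
    have h1 := card_filter_add_card_filter_not (s := G.neighborFinset u) (fun w => G.degree w ≤ θ)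
    have h2 : ((G.neighborFinset u).filter fun w => ¬ G.degree w ≤ θ).card ≤ ccdh G (θ + 1) :=
      card_le_card fun w hw => mem_filter.2 ⟨mem_univ _, by
        exact_mod_cast not_le.1 (mem_filter.1 hw).2⟩
    rw [SimpleGraph.card_neighborFinset_eq_degree] at h1
    have h3 : (dR G θ u : ℝ) ≤ G.degree u := by exact_mod_cast (show dR G θ u ≤ _ by unfold dR; omega)
    have h4 : (G.degree u : ℝ) ≤ dR G θ u + ccdh G (θ + 1) := by
      have : G.degree u ≤ dR G θ u + ccdh G (θ + 1) := by unfold dR; omega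
      exact Nat.cast_add (R := ℝ) _ _ ▸ Nat.cast_le.2 this
    have h5 : 0 ≤ (1 - dR G θ u / G.degree u : ℝ) := by
      rw [sub_nonneg, div_le_one D0]; exact h3
    have h6 : (1 - dR G θ u / G.degree u : ℝ) ≤ 1 - β / 2 := by
      rw [sub_le_sub_iff_left, le_div_iff₀ D0]
      nlinarith [mul_nonneg (mul_nonneg b0.le D0.le) (sub_nonneg.2 b1)]
    refine ⟨pow_nonneg h5 _, (pow_le_pow_left₀ h5 h6 L).trans ?_⟩
    have h7 := one_add_mul_le_pow (a := β / 2) (by linarith) L
    have h8 : (1 - β / 2) ^ L * (1 + β / 2) ^ L ≤ 1 := by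
      rw [← mul_pow]; exact pow_le_one₀ (by nlinarith) (by nlinarith)
    have h9 : 0 ≤ (1 - β / 2) ^ L := pow_nonneg (by linarith) _
    nlinarith [mul_le_mul_of_nonneg_left h7 h9, mul_nonneg h9 b0.le]
  rw [QQ_eq G hx, ccdh_sum, mul_sum]
  constructor <;> refine sum_le_sum fun u _ => ?_ <;> split_ifs with hu
  · linarith [(key u hu).2]
  · simp
  · linarith [(key u hu).1]
  · rfl

end Pool.Agent.MP_16e32a_lc
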