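import Pool.Agent.MP_16e32a_lc.h38.Rounds
import Pool.Agent.MP_16e32a_lc.h38.Defs

/-! The algorithm only asks about vertices it has been given. -/

set_option autoImplicit false
set_option linter.unusedSectionVars false

open scoped Classical

namespace Pool.Agent.MP_16e32a_lc

variable {V α β : Type} [Fintype V] [Nonempty V] {s : Set V}

lemma Fair.mono {t : Alg V α} {s' : Set V} (h : Fair t s) (hs : s ⊆ s') : Fair t s' := by
  induction t generalizing s s' with
  | ret a => trivial
  | vertex k ih => exact fun v => ih v (h v) (Set.insert_subset_insert hs)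
  | degree v k ih => exact ⟨hs h.1, fun d => ih d (h.2 d) hs⟩
  | neighbour v k ih => exact ⟨hs h.1, fun o => ih o (h.2 o) (Set.union_subset_union_left _ hs)⟩
  | coin p k ih => exact fun i => ih i (h i) hs

lemma Fair.bind {t : Alg V α} {c : α → Alg V β} (h : Fair t s) (hc : ∀ a, Fair (c a) s) :
    Fair (t.bind c) s := by
  induction t generalizing s with
  | ret a => exact hc a
  | vertex k ih => exact fun v => ih v (h v) fun a => (hc a).mono (Set.subset_insert _ _)
  | degree v k ih => exact ⟨h.1, fun d => ih d (h.2 d) hc⟩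
  | neighbour v k ih =>
    exact ⟨h.1, fun o => ih o (h.2 o) fun a => (hc a).mono Set.subset_union_left⟩
  | coin p k ih => exact fun i => ih i (h i) hc

lemma Fair.trunc (a0 : α) {t : Alg V α} (h : Fair t s) (q : ℕ) : Fair (trunc a0 t q) s := by
  induction t generalizing s q with
  | ret a => trivial
  | vertex k ih => cases q with
    | zero => trivial
    | succ q => exact fun v => ih v (h v) q
  | degree v k ih => cases q with
    | zero => trivial
    | succ q => exact ⟨h.1, fun d => ih d (h.2 d) q⟩
  | neighbour v k ih => cases q with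
    | zero => trivial
    | succ q => exact ⟨h.1, fun o => ih o (h.2 o) q⟩
  | coin p k ih => exact fun i => ih i (h i) q

lemma Fair.rp {b : Alg V ℝ} (hb : Fair b s) : ∀ r, Fair (rp b r) s
  | 0 => trivial
  | r + 1 => hb.bind fun _ => (Fair.rp hb r).bind fun _ => trivial

lemma Fair.est {b : Alg V ℝ} (hb : Fair b s) (r : ℕ) : Fair (est b r) s :=
  (hb.rp r).bind fun _ => trivial

lemma fair_dblk (x : ℝ) : Fair (dblk x) s := fun _ => ⟨Set.mem_insert _ _, fun _ => trivial⟩

lemma fair_geo (θ : ℕ) {u : V} (hu : u ∈ s) : ∀ L, Fair (geo θ u L) s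
  | 0 => trivial
  | L + 1 => ⟨hu, fun o => by
    cases o with
    | none => trivial
    | some w =>
      refine ⟨Or.inr rfl, fun D => ?_⟩
      simp only
      split_ifs
      · trivial
      · exact ((fair_geo θ hu L).mono Set.subset_union_left).bind fun _ => trivial⟩

lemma fair_stp {x : ℝ} {θ L : ℕ} {v : V} (hv : v ∈ s) : Fair (stp x θ L v) s := ⟨hv, fun o => by
  cases o with
  | none => trivial
  | some w =>
    refine ⟨Or.inr rfl, fun D => ?_⟩
    simp only
    split_ifs
    · refine Fair.bind (fair_geo θ ?_ L) fun _ => trivial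
      exact Or.inr rfl
    · trivial⟩

lemma fair_eblk {x φ : ℝ} {θ L : ℕ} : Fair (eblk x θ L φ) s := fun v =>
  ⟨Set.mem_insert _ _, fun D => by
    simp only
    split_ifs
    · exact ((fair_stp (Set.mem_insert _ _)).rp _).bind fun _ => trivial
    · trivial⟩

lemma fair_probe (Λ i l e : ℕ) : Fair (probe V Λ i l e) s := by
  unfold probe; split_ifs
  · exact ((fair_dblk _).est _).bind fun _ => trivial
  · refine ((fair_dblk _).est _).bind fun _ => ?_
    split_ifs
    · exact (fair_eblk.est _).bind fun _ => trivial
    · trivial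

lemma fair_seq : ∀ l : List (ℕ × Alg V (Option ℝ)), (∀ p ∈ l, Fair p.2 s) → Fair (seq l) s
  | [], _ => trivial
  | p :: l, h => (h p (by simp)).bind fun _ =>
    (fair_seq l fun q hq => h q (by simp [hq])).bind fun _ => trivial

lemma fair_go (Λ S : ℕ) : ∀ f k, Fair (go V Λ S f k) s
  | 0, _ => trivial
  | f + 1, k => (fair_seq _ fun p hp => by
      obtain ⟨c, -, rfl⟩ := List.mem_map.1 hp
      exact (fair_probe _ _ _ _).trunc _ _).bind fun T => by
    split_ifs
    · trivial
    · exact fair_go Λ S f (k + 1)

end Pool.Agent.MP_16e32a_lc
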