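import Pool.Agent.MP_16e32a_lc.h38.Adv

/-! The two families of rewirings: cliques, and vertices that take over edges. -/

set_option autoImplicit false
set_option linter.unusedSectionVars false

open scoped ENNReal Classical
open Finset

noncomputable section

namespace Pool.Agent.MP_16e32a_lc

variable {V : Type} [Fintype V] [Nonempty V]

/-- every family of disjoint hidden rewirings has at most `300 E` members -/
def Hid (G : SimpleGraph V) (β E : ℝ) : Prop :=
  ∀ (T : ℕ) (y : ℝ) (S : Fin T → Finset V), 0 ≤ y → (∀ v i j, v ∈ S i → v ∈ S j → i = j) →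
    (∀ j, ∃ G' : SimpleGraph V, Near G G' (S j) {e | e.2 ∈ S j} ∧
      2 * ccdh G y + 1 ≤ ccdh G' ((1 + β) * y)) → (T : ℝ) ≤ 300 * E

lemma hid_of {G : SimpleGraph V} {β ε E : ℝ} (b1 : β ≤ 1) (e0 : 0 ≤ ε) (hε : 3 * ε ≤ β)
    {t : Alg V (ℝ → ℝ)} (ht : ∀ G, Solves t G ε) (hE : expectedQueries t G ≤ ENNReal.ofReal E)
    (E0 : 0 ≤ E) : Hid G β E := by
  intro T y S hy hS h
  choose G' h1 h2 using h
  exact adv1 G G' S hS h1 (fun j => apart b1 e0 hε hy (h2 j)) t ht hE E0

lemma card_le_deg {G : SimpleGraph V} {x : V} {A : Finset V} (h : ∀ v ∈ A, v ≠ x → G.Adj x v) :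
    A.card ≤ G.degree x + 1 := by
  have h1 : A.erase x ⊆ G.neighborFinset x := fun v hv =>
    (SimpleGraph.mem_neighborFinset _ _ _).2 (h v (mem_of_mem_erase hv) (ne_of_mem_erase hv))
  have h2 := card_le_card h1
  have h3 := pred_card_le_card_erase (s := A) (a := x)
  rw [SimpleGraph.card_neighborFinset_eq_degree] at h2
  omega

lemma lb_clique {G : SimpleGraph V} {β E : ℝ} (b1 : β ≤ 1) (E0 : 0 ≤ E) (H : Hid G β E) :
    (Fintype.card V : ℝ) ≤ 900 * (hIndex G + 1) * (1 + E) := by
  set k := 2 * hIndex G + 3 with hk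
  obtain ⟨W, w1, w2⟩ := family (V := V) (fun W => W.card = k) (fun L => L.card) (c := k) (E0 := k)
    (by positivity) (fun L hL => by
      obtain ⟨W, a1, a2⟩ := exists_subset_card_eq (s := L) (n := k) (by exact_mod_cast hL)
      refine ⟨W, a1, a2, le_of_eq ?_⟩
      rw [← a2]
      exact_mod_cast (card_sdiff_add_card_eq_card a1).symm) (Fintype.card V / k) univ (by
      have : (Fintype.card V / k * k : ℕ) ≤ Fintype.card V := Nat.div_mul_le_self _ _
      have : ((Fintype.card V / k : ℕ) : ℝ) * k ≤ Fintype.card V := by exact_mod_cast this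
      rw [card_univ]; linarith)
  have h1 := H _ (hIndex G + 1) W (by positivity) w2 fun j => by
    obtain ⟨G', g1, g2, -⟩ := rewire (κ := Empty) G (W j) (fun i => i.elim) (fun i => i.elim)
      (fun i => i.elim) (fun i => i.elim) (fun _ i => i.elim)
    refine ⟨G', g1, ?_⟩
    have a1 : ccdh G (hIndex G + 1) ≤ hIndex G := by
      have := prof_succ_le G
      rwa [← ccdh_nat, Nat.cast_succ] at this
    have a2 : (W j).card ≤ ccdh G' ((1 + β) * (hIndex G + 1)) := card_le_card fun x hx => by
      have := card_le_deg (G := G') (x := x) fun v hv h => g2 x hx v hv h.symm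
      rw [(w1 j).2] at this
      have : 2 * (hIndex G : ℝ) + 2 ≤ G'.degree x := by exact_mod_cast (by omega)
      refine mem_filter.2 ⟨mem_univ _, ?_⟩
      nlinarith [Nat.cast_nonneg (α := ℝ) (hIndex G)]
    rw [(w1 j).2] at a2
    omega
  have h2 : Fintype.card V < (Fintype.card V / k + 1) * k := by
    rw [mul_comm]; exact Nat.lt_mul_div_succ _ (by omega)
  have h3 : (Fintype.card V : ℝ) < ((Fintype.card V / k : ℕ) + 1) * (2 * hIndex G + 3) := by
    exact_mod_cast h2
  have h4 : (0 : ℝ) ≤ hIndex G := Nat.cast_nonneg _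
  nlinarith [mul_nonneg h4 E0, mul_le_mul_of_nonneg_right h1 (show (0 : ℝ) ≤ 2 * hIndex G + 3 by
    positivity)]

section greedy

variable (U : Finset V) (H : V → Finset V)

def ind' (w : V) : ℕ := (U.filter fun v => w ∈ H v).card

def ee (L : Finset V) : ℕ := ∑ w ∈ L, ind' U H w

def nb (W : Finset V) : Finset V := U.filter fun v => ∃ w ∈ W, w ∈ H v

lemma ee_le {d : ℕ} (hH : ∀ v ∈ U, (H v).card ≤ d) (L : Finset V) : ee U H L ≤ U.card * d := by
  simp only [ee, ind', card_filter]
  rw [sum_comm, ← smul_eq_mul]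
  refine sum_le_card_nsmul _ _ _ fun v hv => le_trans ?_ (hH v hv)
  rw [← card_filter]
  exact card_le_card fun w hw => (mem_filter.1 hw).2

lemma ee_eq {d : ℕ} {L : Finset V} (hH : ∀ v ∈ U, (H v).card = d ∧ H v ⊆ L) :
    ee U H L = U.card * d := by
  simp only [ee, ind', card_filter]
  rw [sum_comm, ← smul_eq_mul, ← sum_const]
  refine sum_congr rfl fun v hv => ?_
  rw [← card_filter, filter_mem_eq_inter, inter_eq_right.2 (hH v hv).2, (hH v hv).1]

lemma grow {d D P : ℕ} {L : Finset V} (hH : ∀ v ∈ U, (H v).card ≤ d)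
    (hD : ∀ w, ind' U H w ≤ D) (h1 : P * (D * d) + ee U H L ≤ P * ee U H L) (h2 : 0 < ee U H L) :
    ∀ (k : ℕ) (W : Finset V), W ⊆ L → ee U H W ≤ P * (nb U H W).card → (nb U H W).card ≤ 2 * D →
      D ≤ (nb U H W).card + k → ∃ W ⊆ L, D ≤ (nb U H W).card ∧ ee U H W ≤ P * (2 * D) := by
  intro k
  induction k with
  | zero => exact fun W a b c e => ⟨W, a, e, b.trans (Nat.mul_le_mul_left _ c)⟩
  | succ k ih =>
    intro W a b c e
    by_cases hc : D ≤ (nb U H W).card
    · exact ⟨W, a, hc, b.trans (Nat.mul_le_mul_left _ c)⟩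
    have s1 : ∀ w, ind' U H w = ind' (nb U H W) H w + ind' (U \ nb U H W) H w := fun w => by
      unfold ind'
      rw [← card_union_of_disjoint (disjoint_filter_filter disjoint_sdiff), ← filter_union,
        union_sdiff_of_subset (show nb U H W ⊆ U from filter_subset _ _)]
    have s2 : ee U H L = ee (nb U H W) H L + ee (U \ nb U H W) H L := by
      unfold ee; rw [← sum_add_distrib]; exact sum_congr rfl fun w _ => s1 w
    have s3 : ee (nb U H W) H L ≤ D * d :=
      (ee_le (nb U H W) H (fun v hv => hH v (mem_filter.1 hv).1) L).trans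
        (Nat.mul_le_mul_right _ (by omega))
    have s4 : ee U H L ≤ P * ee (U \ nb U H W) H L := by
      have := Nat.mul_le_mul_left P s3
      have e : P * ee U H L = P * ee (nb U H W) H L + P * ee (U \ nb U H W) H L := by
        rw [s2]; ring
      omega
    obtain ⟨w, w1, w2, w3⟩ : ∃ w ∈ L, 0 < ind' U H w ∧
        ind' U H w ≤ P * ind' (U \ nb U H W) H w := by
      by_contra hn
      push Not at hn
      obtain ⟨w, w1, w2⟩ := exists_ne_zero_of_sum_ne_zero h2.ne'
      refine absurd s4 (not_le.2 ?_)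
      unfold ee
      rw [mul_sum]
      refine sum_lt_sum (fun x hx => ?_) ⟨w, w1, hn w w1 (Nat.pos_of_ne_zero w2)⟩
      rcases Nat.eq_zero_or_pos (ind' U H x) with h0 | h0
      · have := s1 x
        rw [show ind' (U \ nb U H W) H x = 0 by omega]; simp
      · exact (hn x hx h0).le
    have s5 : (nb U H (insert w W)).card = (nb U H W).card + ind' (U \ nb U H W) H w := by
      unfold ind'
      rw [← card_union_of_disjoint (disjoint_sdiff.mono_right (filter_subset _ _))]
      congr 1
      ext v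
      simp only [nb, mem_filter, mem_union, mem_sdiff, mem_insert, exists_eq_or_imp]
      generalize (∃ a ∈ W, a ∈ H v) = p
      tauto
    have s6 : ee U H (insert w W) ≤ ind' U H w + ee U H W := by
      unfold ee
      by_cases hw : w ∈ W
      · rw [insert_eq_of_mem hw]; omega
      · rw [sum_insert hw]
    have s7 : 0 < ind' (U \ nb U H W) H w := by
      rcases Nat.eq_zero_or_pos (ind' (U \ nb U H W) H w) with h0 | h0
      · rw [h0] at w3; omega
      · exact h0
    have s8 := s1 w
    have s9 := hD w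
    refine ih (insert w W) (insert_subset w1 a) ?_ (by omega) (by omega)
    rw [s5, mul_add]; omega

end greedy

lemma lb_take {G : SimpleGraph V} {Λ d : ℕ} {E y : ℝ} (hΛ : 19 ≤ Λ) (E0 : 0 ≤ E)
    (Hd : Hid G (1 / Λ) E) (hy : 8 * Λ ≤ y) (hu : (1 + 1 / Λ) ^ 2 * y ≤ prof G d)
    (hd : 2 * ccdh G y ≤ d) :
    (d : ℝ) * prof G d ≤ 172800 * Λ ^ 2 * y * (ccdh G y + 1) * (1 + E) := by
  have l0 : (19 : ℝ) ≤ Λ := by exact_mod_cast hΛ
  have y0 : 0 < y := by linarith
  rcases Nat.eq_zero_or_pos d with rfl | d0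
  · simp only [Nat.cast_zero, zero_mul]; positivity
  set t := ccdh G y with ht
  set U := univ.filter fun v => d ≤ G.degree v with hU
  have key : ∀ v, ∃ A : Finset V, (∀ w ∈ A, G.Adj v w ∧ (G.degree w : ℝ) < y) ∧
      (v ∈ U → A.card = d - t) := by
    intro v
    by_cases hv : v ∈ U
    · have h1 := card_filter_add_card_filter_not (s := G.neighborFinset v)
        (fun w => y ≤ (G.degree w : ℝ))
      have h2 : ((G.neighborFinset v).filter fun w => y ≤ (G.degree w : ℝ)).card ≤ t :=
        card_le_card (filter_subset_filter _ (subset_univ _))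
      rw [SimpleGraph.card_neighborFinset_eq_degree] at h1
      have h3 := (mem_filter.1 hv).2
      obtain ⟨A, a1, a2⟩ := exists_subset_card_eq
        (s := (G.neighborFinset v).filter fun w => ¬ y ≤ (G.degree w : ℝ)) (n := d - t) (by omega)
      refine ⟨A, fun w hw => ?_, fun _ => a2⟩
      have := mem_filter.1 (a1 hw)
      exact ⟨(SimpleGraph.mem_neighborFinset _ _ _).1 this.1, not_le.1 this.2⟩
    · exact ⟨∅, by simp, fun h => absurd h hv⟩
  choose H h1 h2 using key
  set β : ℝ := 1 / Λ with hβ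
  have b0 : 0 < β := by positivity
  have b1 : β * Λ = 1 := by rw [hβ]; field_simp
  have b2 : β ≤ 1 / 19 := by rw [hβ]; gcongr
  have b3 : 8 ≤ β * y := by nlinarith
  set D := ⌈(1 + β) * y⌉₊ + 1 with hD
  have D1 : (1 + β) * y + 1 ≤ D := by rw [hD]; push_cast; linarith [Nat.le_ceil ((1 + β) * y)]
  have D2 : (D : ℝ) ≤ (1 + β) * y + 2 := by
    rw [hD]; push_cast
    linarith [Nat.ceil_lt_add_one (show 0 ≤ (1 + β) * y by positivity)]
  have D3 : (D : ℝ) ≤ 2 * y := by nlinarith
  have hin : ∀ w, ind' U H w ≤ D := fun w => by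
    rcases Nat.eq_zero_or_pos (ind' U H w) with h0 | h0
    · omega
    obtain ⟨v, hv⟩ := card_pos.1 h0
    have a1 := (h1 v w (mem_filter.1 hv).2).2
    have a2 : ind' U H w ≤ G.degree w := card_le_card fun x hx =>
      (SimpleGraph.mem_neighborFinset _ _ _).2 (h1 x w (mem_filter.1 hx).2).1.symm
    have a3 : (G.degree w : ℝ) ≤ D := by nlinarith
    exact a2.trans (by exact_mod_cast a3)
  set d' := d - t with hd'
  have d1 : (d : ℝ) ≤ 2 * d' := by exact_mod_cast (show d ≤ 2 * d' by omega)
  have d2 : (0 : ℝ) < d' := by exact_mod_cast (show 0 < d' by omega)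
  have eU : (ee U H univ : ℝ) = prof G d * d' := by
    exact_mod_cast ee_eq U H fun v hv => ⟨h2 v hv, subset_univ _⟩
  set u : ℝ := (prof G d : ℝ) with hu'
  have c0 : (0 : ℝ) < 9 * Λ * (2 * D) := by
    have : (0 : ℝ) < D := by nlinarith
    positivity
  set T := ⌊β * u * d' / (4 * (9 * Λ * (2 * D)) * (2 * t + 1))⌋₊ with hT
  have u0 : 0 < u := lt_of_lt_of_le (by positivity) hu
  obtain ⟨W, w1, w2⟩ := family (V := V) (fun W => D ≤ (nb U H W).card) (fun L => ee U H L)
    (c := 9 * Λ * (2 * D)) (E0 := (1 + β / 8) * D * d') c0.le (fun L hL => by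
      have p0 : (0 : ℝ) < D * d' := by nlinarith
      obtain ⟨W, a1, a2, a3⟩ := grow U H (d := d') (D := D) (P := 9 * Λ) (L := L)
        (fun v hv => (h2 v hv).le) hin (by
          have : (9 * Λ * (D * d') + ee U H L : ℝ) ≤ 9 * Λ * ee U H L := by
            have e : (9 * Λ - 1) * ((1 + β / 8) * D * d') ≤ (9 * Λ - 1) * ee U H L :=
              mul_le_mul_of_nonneg_left hL (by linarith)
            have e' : (9 * Λ - 1) * ((1 + β / 8) * D * d') =
                (9 * Λ + (9 * (β * Λ) / 8 - 1 - β / 8)) * (D * d') := by ring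
            rw [e', b1] at e
            nlinarith
          exact_mod_cast this) (by
          have : (0 : ℝ) < ee U H L := by nlinarith
          exact_mod_cast this) D ∅ (empty_subset _) (by simp [ee]) (by simp [nb]) (by omega)
      refine ⟨W, a1, a2, ?_⟩
      have e : ee U H (L \ W) + ee U H W = ee U H L := sum_sdiff a1
      exact_mod_cast (show ee U H L ≤ ee U H (L \ W) + 9 * Λ * (2 * D) by omega))
    (T * (2 * t + 1)) univ (by
      have a1 : (T : ℝ) ≤ _ := Nat.floor_le (by positivity)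
      rw [le_div_iff₀ (by positivity)] at a1
      have a2 : (1 + β / 8) * D ≤ (1 - β / 4) * u := by
        have : (D : ℝ) ≤ (1 + β / 4) * ((1 + β) * y) := by nlinarith
        have z : 0 ≤ (1 + β) * y := by positivity
        have : (1 + β / 8) * D ≤ (1 + β / 2) * ((1 + β) * y) := by nlinarith
        have : (1 + β / 2) * ((1 + β) * y) ≤ (1 - β / 4) * ((1 + β) ^ 2 * y) := by
          nlinarith [mul_nonneg z (show 0 ≤ β * (1 - β) by nlinarith)]
        nlinarith
      rw [eU]; push_cast
      nlinarith)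
  have hne : ∀ i, (W i).Nonempty := fun i => by
    obtain ⟨v, hv⟩ := card_pos.1 (show 0 < (nb U H (W i)).card by have := (w1 i).2; omega)
    obtain ⟨w, hw, -⟩ := (mem_filter.1 hv).2
    exact ⟨w, hw⟩
  choose s hs using hne
  have h3 := Hd T y (fun j => univ.biUnion fun i => W (finProdFinEquiv (j, i))) y0.le
    (fun v i j a b => by
      obtain ⟨x, -, a⟩ := mem_biUnion.1 a
      obtain ⟨z, -, b⟩ := mem_biUnion.1 b
      exact congrArg Prod.fst (finProdFinEquiv.injective (w2 v _ _ a b))) fun j => by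
    have inj : ∀ v (i i' : Fin (2 * t + 1)), v ∈ W (finProdFinEquiv (j, i)) →
        v ∈ W (finProdFinEquiv (j, i')) → i = i' := fun v i i' a b =>
      congrArg Prod.snd (finProdFinEquiv.injective (w2 v _ _ a b))
    obtain ⟨G', g1, -, g2⟩ := rewire G (univ.biUnion fun i => W (finProdFinEquiv (j, i)))
      (fun i => W (finProdFinEquiv (j, i))) (fun i => s (finProdFinEquiv (j, i)))
      (fun i => subset_biUnion_of_mem (fun i => W (finProdFinEquiv (j, i))) (mem_univ i))
      (fun i => hs _) inj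
    refine ⟨G', g1, ?_⟩
    rw [← ht]
    refine le_trans (by simp) (card_le_card_of_injOn (s := univ)
      (fun i : Fin (2 * t + 1) => s (finProdFinEquiv (j, i))) (fun i _ => ?_)
      fun i _ i' _ e => inj _ i i' (hs _) (by
        have e : s (finProdFinEquiv (j, i)) = s (finProdFinEquiv (j, i')) := e
        rw [e]; exact hs _))
    have a1 := card_le_deg (G := G') (x := s (finProdFinEquiv (j, i)))
      (A := nb U H (W (finProdFinEquiv (j, i)))) fun v hv h => g2 i v h (by
        obtain ⟨w, a, b⟩ := (mem_filter.1 hv).2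
        exact ⟨w, a, (h1 v w b).1⟩)
    have a2 : (D : ℝ) ≤ G'.degree (s (finProdFinEquiv (j, i))) + 1 := by
      exact_mod_cast (w1 _).2.trans a1
    exact mem_coe.2 (mem_filter.2 ⟨mem_univ _, by linarith⟩)
  have h4 := Nat.lt_floor_add_one (β * u * d' / (4 * (9 * Λ * (2 * D)) * (2 * t + 1)))
  rw [← hT, div_lt_iff₀ (by positivity)] at h4
  have t0 : (0 : ℝ) ≤ t := Nat.cast_nonneg _
  have h5 : ((T : ℝ) + 1) * (4 * (9 * Λ * (2 * D)) * (2 * t + 1)) ≤
      (300 * (1 + E)) * (4 * (9 * Λ * (2 * (2 * y))) * (2 * (t + 1))) := by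
    gcongr <;> linarith
  have h6 : (d : ℝ) * u ≤ 2 * Λ * (β * u * d') := by
    have : 2 * Λ * (β * u * d') = (β * Λ) * (2 * d' * u) := by ring
    rw [this, b1]; nlinarith
  calc _ ≤ _ := h6
    _ ≤ 2 * Λ * ((300 * (1 + E)) * (4 * (9 * Λ * (2 * (2 * y))) * (2 * (t + 1)))) :=
      mul_le_mul_of_nonneg_left (h4.le.trans h5) (by positivity)
    _ = _ := by ring

end Pool.Agent.MP_16e32a_lc
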