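import Pool.Agent.MP_16e32a_lc.h38.Fair
import Pool.Agent.MP_16e32a_lc.h38.Greedy

/-! In every window some probe is as cheap as the lower bounds allow. -/

set_option autoImplicit false
set_option linter.unusedSectionVars false

open scoped ENNReal Classical
open Finset

noncomputable section

namespace Pool.Agent.MP_16e32a_lc

variable {V : Type} [Fintype V] [Nonempty V] {G : SimpleGraph V} {Λ S : ℕ}

lemma pigeon (b : ℕ → ℕ) (h0 : b 0 < 2 ^ S) : ∃ s ≤ S, b s + 1 ≤ 2 * (b (s + 1) + 1) := by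
  by_contra hc
  push Not at hc
  have key : ∀ s, s ≤ S + 1 → 2 ^ s * (b s + 1) ≤ b 0 + 1 := by
    intro s
    induction s with
    | zero => simp
    | succ s ih =>
      intro hs
      have := Nat.mul_le_mul_left (2 ^ s) (hc s (by omega)).le
      have := ih (by omega)
      rw [pow_succ, mul_assoc]; omega
  have h1 := key (S + 1) le_rfl
  have h2 : 2 ^ (S + 1) ≤ 2 ^ (S + 1) * (b (S + 1) + 1) := Nat.le_mul_of_pos_right _ (by omega)
  rw [pow_succ] at h1 h2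
  omega

lemma level {N : ℕ} (h : N < 2 ^ S) :
    ∃ l ≤ S, ((2 : ℝ) ^ l ≤ 1 ∨ 4 * (2 : ℝ) ^ l ≤ N) ∧ (N : ℝ) + 1 ≤ 8 * 2 ^ l := by
  by_cases c : N < 8
  · refine ⟨0, by omega, Or.inl (by simp), ?_⟩
    exact_mod_cast (show N + 1 ≤ 8 * 2 ^ 0 by omega)
  · have h1 : 3 < Nat.size N := Nat.lt_size.2 (by omega)
    have h2 := Nat.size_le.2 h
    obtain ⟨l, hl⟩ : ∃ l, Nat.size N = l + 3 := ⟨Nat.size N - 3, by omega⟩
    have h3 := Nat.lt_size_self N
    have h4 : 2 ^ (l + 2) ≤ N := Nat.lt_size.1 (by omega)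
    rw [hl] at h3
    rw [pow_add] at h3 h4
    refine ⟨l, by omega, Or.inr ?_, ?_⟩
    · exact_mod_cast (show 4 * 2 ^ l ≤ N by omega)
    · exact_mod_cast (show N + 1 ≤ 8 * 2 ^ l by omega)

lemma mR_le {M : ℝ} : ∀ k : ℕ, (∀ a < k, ((2 ^ a : ℕ) : ℝ) * prof G (2 ^ a) ≤ M) →
    mR G (2 ^ k - 1) ≤ k * (2 * M)
  | 0, _ => by
    refine le_of_eq ?_
    simp only [mR, Nat.cast_zero, zero_mul]
    refine sum_eq_zero fun v _ => ?_
    split_ifs with h
    · exact_mod_cast (show G.degree v = 0 by simpa using h)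
    · rfl
  | k + 1, h => by
    have h1 := mR_le k fun a ha => h a (by omega)
    have h2 := h k (by omega)
    have h3 : mR G (2 ^ (k + 1) - 1) ≤ mR G (2 ^ k - 1) + 2 * (((2 ^ k : ℕ) : ℝ) * prof G (2 ^ k)) := by
      rw [prof_eq_sum, Nat.cast_sum, mul_sum, mul_sum, mR, mR, ← sum_add_distrib]
      refine sum_le_sum fun v _ => ?_
      have p0 : 0 < 2 ^ k := by positivity
      rw [pow_succ]
      generalize 2 ^ k = p at *
      generalize G.degree v = D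
      have : (if D ≤ p * 2 - 1 then D else 0) ≤
          (if D ≤ p - 1 then D else 0) + 2 * (p * if p ≤ D then 1 else 0) := by
        split_ifs <;> omega
      exact_mod_cast this
    push_cast at h1 h2 h3 ⊢
    linarith

/-- `Φ` dominates the two kinds of terms of `inst` -/
def Dom (G : SimpleGraph V) (η Φ : ℝ) : Prop :=
  (Fintype.card V : ℝ) ≤ Φ * (hIndex G + 1) ∧ ∀ (d : ℕ) (y : ℝ), ((hIndex G : ℝ) + 1) / 4 ≤ y →
    (1 + η) ^ 2 * y ≤ prof G d → (d : ℝ) * prof G d ≤ Φ * (y * (ccdh G y + 1))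

theorem easy_main (hS : Fintype.card V < 2 ^ S) (h1 : 19 ≤ Λ) (h2 : 8 * S + 10 < Λ) {Φ : ℝ}
    (Φ1 : 1 ≤ Φ) (Hd : Dom G (1 / Λ) Φ) : Easy G Λ S (6000 * Λ ^ 14 * Φ) := by
  have l0 : (19 : ℝ) ≤ Λ := by exact_mod_cast h1
  have l1 : (1 : ℝ) ≤ Λ := by linarith
  have b0 : (0 : ℝ) < 1 / Λ := by positivity
  have b1 : (1 / Λ : ℝ) ≤ 1 / 19 := by gcongr
  have hn : (0 : ℝ) < Fintype.card V := by exact_mod_cast Fintype.card_pos
  obtain ⟨hq, hM⟩ := Hd
  have pw : ∀ a b, a ≤ b → 1 ≤ (Λ : ℝ) ^ a * Φ ∧ (Λ : ℝ) ^ a * Φ ≤ Λ ^ b * Φ :=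
    fun a b ha => ⟨one_le_mul_of_one_le_of_one_le (one_le_pow₀ l1) Φ1,
      mul_le_mul_of_nonneg_right (pow_le_pow_right₀ l1 ha) (by linarith)⟩
  have p9 : (0 : ℝ) ≤ Λ ^ 9 := by positivity
  intro j
  have cl : ∀ z, ccdh G z < 2 ^ S := fun z => (card_le_univ _).trans_lt hS
  obtain ⟨s, s1, s2⟩ := pigeon (fun s => ccdh G (xs Λ (j + 4 * s))) (cl _)
  obtain ⟨l, l2, l3, l4⟩ := level (cl (xs Λ (j + 4 * (s + 1))))
  have φ1 : (1 : ℝ) ≤ 2 ^ l := one_le_pow₀ one_le_two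
  have ex' : xs Λ (j + 4 * (s + 1)) = (1 + 1 / Λ) ^ 4 * xs Λ (j + 4 * s) := by unfold xs; ring
  have y0 := xs_pos (Λ := Λ) (j + 4 * s)
  have y5 : 1 / 2 ≤ xs Λ (j + 4 * s) := by
    have : (1 : ℝ) ≤ (1 + 1 / Λ) ^ (j + 4 * s) := one_le_pow₀ (by linarith)
    unfold xs; linarith
  have d0 : (0 : ℝ) ≤ 1 / Λ ^ 7 := by positivity
  have s3 : (ccdh G (xs Λ (j + 4 * s)) : ℝ) + 1 ≤ 16 * 2 ^ l := by
    have : (ccdh G (xs Λ (j + 4 * s)) : ℝ) + 1 ≤ 2 * (ccdh G (xs Λ (j + 4 * (s + 1))) + 1) := by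
      exact_mod_cast s2
    linarith
  by_cases hx : xs Λ (j + 4 * (s + 1)) ≤ hIndex G
  · refine ⟨j + 4 * (s + 1), l, 0, fun _ _ => ⟨by omega, by omega, by omega, by omega, ?_, ?_⟩⟩
    · have := (dprobe_ok G h1 φ1).2 l3
      rw [probe, if_pos rfl, show (2 : ℝ) / Λ ^ 7 = 1 / Λ ^ 7 + 1 / Λ ^ 7 by ring]
      linarith
    · rw [probe, if_pos rfl]
      refine (dprobe_cost G φ1).trans ?_
      have a1 : (hIndex G : ℝ) ≤ ccdh G (xs Λ (j + 4 * (s + 1))) := by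
        exact_mod_cast ((hIndex_le_prof G).trans_eq (ccdh_nat G _).symm).trans (ccdh_anti G hx)
      have a2 : (Fintype.card V : ℝ) ≤ Φ * (8 * 2 ^ l) := hq.trans (by gcongr; linarith)
      have a3 : 4 * Fintype.card V * (Λ : ℝ) ^ 9 / 2 ^ l ≤ 32 * (Λ ^ 9 * Φ) := by
        rw [div_le_iff₀ (by positivity)]
        linarith [mul_le_mul_of_nonneg_right a2 p9]
      have a4 := pw 9 14 (by norm_num)
      linarith [a4.1, a4.2]
  push Not at hx
  generalize hy : xs Λ (j + 4 * s) = y at *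
  have r4 : (1 + 1 / Λ : ℝ) ^ 4 ≤ 2 := (pow_le_lin b0.le 4 (by push_cast; linarith)).trans
    (by push_cast; linarith)
  have y1 : (hIndex G : ℝ) ≤ 2 * y := by rw [ex'] at hx; nlinarith
  have y2 : (Fintype.card V : ℝ) ≤ Φ * (4 * y) := hq.trans (by gcongr; linarith)
  have y3 : xs Λ (j + 4 * (s + 1)) / (1 + 1 / Λ) ^ 2 = (1 + 1 / Λ) ^ 2 * y := by
    rw [ex']; field_simp
  have y4 : y ≤ (1 + 1 / Λ) ^ 2 * y := le_mul_of_one_le_left y0.le (one_le_pow₀ (by linarith))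
  have hex : ∃ θ, (prof G (θ + 1) : ℝ) ≤ (1 + 1 / Λ) ^ 2 * y ∧ θ ≤ Fintype.card V ∧
      ∀ d, 1 ≤ d → d ≤ θ → (1 + 1 / Λ) ^ 2 * y < prof G d := by
    have e : (prof G (Fintype.card V + 1) : ℝ) ≤ (1 + 1 / Λ) ^ 2 * y := by
      have : prof G (Fintype.card V + 1) = 0 := by
        rw [prof, card_eq_zero, filter_eq_empty_iff]
        intro v _ hv
        have := G.degree_lt_card_verts v
        omega
      rw [this]; push_cast; linarith
    have e' : ∃ θ, (prof G (θ + 1) : ℝ) ≤ (1 + 1 / Λ) ^ 2 * y := ⟨_, e⟩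
    refine ⟨Nat.find e', Nat.find_spec e', Nat.find_min' e' e, fun d d1 d2 => ?_⟩
    have := Nat.find_min e' (m := d - 1) (by omega)
    rwa [Nat.sub_add_cancel d1, not_le] at this
  obtain ⟨θ, t1, t2, t3⟩ := hex
  have k1 : Nat.size θ ≤ S := Nat.size_le.2 (t2.trans_lt hS)
  have k2 := Nat.lt_size_self θ
  have k3 := mR_le (G := G) (Nat.size θ) fun a ha =>
    hM _ y (by linarith) (t3 _ Nat.one_le_two_pow (Nat.lt_size.1 ha)).le
  have k4 : Nat.size θ = 0 ∨ y ≤ Fintype.card V := by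
    rcases Nat.eq_zero_or_pos θ with rfl | c
    · exact Or.inl Nat.size_zero
    · have a2 : (prof G θ : ℝ) ≤ Fintype.card V := by exact_mod_cast prof_le G θ
      exact Or.inr (by linarith [t3 θ c le_rfl])
  generalize Nat.size θ = k at *
  refine ⟨j + 4 * (s + 1), l, k + 1, fun _ _ => ⟨by omega, by omega, by omega, by omega, ?_, ?_⟩⟩
  · rw [probe, if_neg (by omega), y3, Nat.add_sub_cancel]
    refine (eprobe_ok G h1 φ1 (by linarith) (by rw [ex']; ring)).2 l3 (le_trans ?_ t1)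
    rw [← Nat.cast_succ, ccdh_nat]
    exact_mod_cast prof_anti G (by omega)
  · rw [probe, if_neg (by omega), y3, Nat.add_sub_cancel]
    refine (eprobe_cost G φ1).trans ?_
    have r0 : (0 : ℝ) ≤ rr V Λ ((1 + 1 / Λ) ^ 2 * y) := Nat.cast_nonneg _
    have r1 : (rr V Λ ((1 + 1 / Λ) ^ 2 * y) : ℝ) ≤ 32 * Fintype.card V * Λ ^ 11 / y + 1 :=
      (Nat.ceil_lt_add_one (by positivity)).le.trans (by gcongr)
    have m0 : 0 ≤ mR G (2 ^ k - 1) := sum_nonneg fun v _ => by split_ifs <;> positivity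
    generalize (rr V Λ ((1 + 1 / Λ) ^ 2 * y) : ℝ) = r at *
    generalize mR G (2 ^ k - 1) = m at *
    have p11 : (1 : ℝ) ≤ Λ ^ 11 := one_le_pow₀ l1
    have r2 : r ≤ 129 * (Λ ^ 12 * Φ) := by
      have a1 : 32 * Fintype.card V * (Λ : ℝ) ^ 11 / y ≤ 128 * (Λ ^ 11 * Φ) := by
        rw [div_le_iff₀ y0]
        linarith [mul_le_mul_of_nonneg_right y2 (show (0 : ℝ) ≤ Λ ^ 11 by positivity)]
      linarith [(pw 12 12 le_rfl).1, (pw 11 12 (by norm_num)).2]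
    have r3 : r * (m / (Fintype.card V * 2 ^ l)) ≤ 1056 * (Λ ^ 12 * Φ) := by
      rcases k4 with rfl | c
      · have : m = 0 := le_antisymm (by simpa using k3) m0
        rw [this]; simp only [zero_div, mul_zero]; positivity
      · have a1 : r ≤ 33 * Fintype.card V * Λ ^ 11 / y := by
          have : 1 ≤ Fintype.card V * (Λ : ℝ) ^ 11 / y := by
            rw [le_div_iff₀ y0]; nlinarith
          have e : 33 * Fintype.card V * (Λ : ℝ) ^ 11 / y =
            32 * Fintype.card V * Λ ^ 11 / y + Fintype.card V * Λ ^ 11 / y := by ring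
          linarith
        have a2 : (k : ℝ) ≤ Λ := by exact_mod_cast (by omega)
        calc _ ≤ 33 * Fintype.card V * Λ ^ 11 / y * (Λ * (2 * (Φ * (y * (16 * 2 ^ l)))) /
              (Fintype.card V * 2 ^ l)) := by
              gcongr
              exact k3.trans (by gcongr)
          _ = _ := by field_simp; norm_num
    have q1 : (6 : ℝ) ≤ Λ ^ 2 := by nlinarith
    have q2 : 0 ≤ r * (m / (Fintype.card V * 2 ^ l)) := by positivity
    calc _ = (6 + 4 * Λ ^ 2) * r + (2 + 4 * Λ ^ 2) * (r * (m / (Fintype.card V * 2 ^ l))) := by ring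
      _ ≤ 5 * Λ ^ 2 * (129 * (Λ ^ 12 * Φ)) + 5 * Λ ^ 2 * (1056 * (Λ ^ 12 * Φ)) := by
          gcongr <;> linarith
      _ = 5925 * (Λ ^ 14 * Φ) := by ring
      _ ≤ _ := by linarith [(pw 14 14 le_rfl).1]

lemma Dom.anti {η η' Φ : ℝ} (h : Dom G η Φ) (h0 : 0 ≤ η) (hη : η ≤ η') : Dom G η' Φ :=
  ⟨h.1, fun d y a b => h.2 d y a (le_trans (by
    have : 0 ≤ y := le_trans (by positivity) a
    gcongr) b)⟩

lemma dom_inst (η : ℝ) : 1 ≤ inst G η ∧ Dom G η (inst G η) := by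
  have h0 : (0 : ℝ) < hIndex G + 1 := by positivity
  have h1 : (hIndex G : ℝ) + 1 ≤ Fintype.card V := by
    rcases Nat.eq_zero_or_pos (hIndex G) with c | c
    · rw [c]; simpa using (show (1 : ℝ) ≤ Fintype.card V by exact_mod_cast Fintype.card_pos)
    · obtain ⟨v, hv⟩ := card_pos.1 (c.trans_le (hIndex_le_prof G))
      exact_mod_cast (mem_filter.1 hv).2.trans_lt (G.degree_lt_card_verts v)
  have h2 := (one_le_div h0).2 h1
  unfold inst
  set Z := {z : ℝ | ∃ (d : ℕ) (y : ℝ), ((hIndex G : ℝ) + 1) / 4 ≤ y ∧ (1 + η) ^ 2 * y ≤ ccdh G d ∧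
    z = d * ccdh G d / (y * (ccdh G y + 1))} with hZ
  have h3 : 0 ≤ sSup Z := Real.sSup_nonneg (by
    rintro _ ⟨d, y, a, -, rfl⟩
    have : 0 < y := lt_of_lt_of_le (by positivity) a
    positivity)
  have h4 : BddAbove Z := ⟨4 * (∑ v, G.degree v : ℕ), by
    rintro _ ⟨d, y, a, -, rfl⟩
    have y0 : 1 / 4 ≤ y := by linarith [Nat.cast_nonneg (α := ℝ) (hIndex G)]
    have a1 : (d : ℝ) * ccdh G d ≤ (∑ v, G.degree v : ℕ) := by
      rw [ccdh_nat]; exact_mod_cast mul_prof_le G d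
    have a2 : 1 / 4 ≤ y * (ccdh G y + 1) := by nlinarith [Nat.cast_nonneg (α := ℝ) (ccdh G y)]
    rw [div_le_iff₀ (by linarith)]
    nlinarith [Nat.cast_nonneg (α := ℝ) (∑ v, G.degree v)]⟩
  refine ⟨by linarith, ?_, fun d y a b => ?_⟩
  · rw [← div_le_iff₀ h0]; linarith
  · have y0 : 0 < y := lt_of_lt_of_le (by positivity) a
    have := le_csSup h4 ⟨d, y, a, by rwa [ccdh_nat], rfl⟩
    rw [ccdh_nat] at this
    rw [← div_le_iff₀ (by positivity)]; linarith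

lemma inst_le {η Φ : ℝ} (h : Dom G η Φ) (h0 : 0 ≤ Φ) : inst G η ≤ 2 * Φ := by
  have h1 := (div_le_iff₀ (by positivity)).2 h.1
  have h2 := Real.sSup_le (s := {z : ℝ | ∃ (d : ℕ) (y : ℝ), ((hIndex G : ℝ) + 1) / 4 ≤ y ∧
    (1 + η) ^ 2 * y ≤ ccdh G d ∧ z = d * ccdh G d / (y * (ccdh G y + 1))}) (a := Φ) (by
      rintro _ ⟨d, y, a, b, rfl⟩
      have y0 : 0 < y := lt_of_lt_of_le (by positivity) a
      rw [ccdh_nat] at b ⊢
      rw [div_le_iff₀ (by positivity)]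
      exact h.2 d y a b) h0
  unfold inst; linarith

lemma dom_of_hid (h1 : 19 ≤ Λ) {E : ℝ} (E0 : 0 ≤ E) (Hd : Hid G (1 / Λ) E) :
    Dom G (1 / Λ) (172800 * Λ ^ 2 * (1 + E)) := by
  have l0 : (19 : ℝ) ≤ Λ := by exact_mod_cast h1
  have hq := lb_clique (by rw [div_le_one (by linarith)]; linarith) E0 Hd
  have l2 : 19 * (Λ : ℝ) ≤ Λ ^ 2 := by nlinarith
  have h0 : (0 : ℝ) ≤ hIndex G := Nat.cast_nonneg _
  refine ⟨hq.trans ?_, fun d y a b => ?_⟩
  · rw [mul_right_comm]; gcongr; linarith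
  have y0 : 0 < y := lt_of_lt_of_le (by positivity) a
  have t0 : (0 : ℝ) ≤ ccdh G y := Nat.cast_nonneg _
  have y2 : (Fintype.card V : ℝ) ≤ 900 * (4 * y) * (1 + E) := hq.trans (by gcongr; linarith)
  by_cases c : 2 * ccdh G y ≤ d
  · by_cases c' : 8 * (Λ : ℝ) ≤ y
    · exact (lb_take h1 E0 Hd c' b c).trans_eq (by ring)
    · have a1 : (d : ℝ) * prof G d ≤ 2 * (Fintype.card V * hIndex G) := by
        have e1 := mul_prof_le G d
        have e2 := HasParams.m_le (G := G) ⟨rfl, rfl, rfl⟩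
        rw [degsum] at e1
        exact_mod_cast (by omega)
      calc _ ≤ _ := a1
        _ ≤ 2 * (900 * (4 * y) * (1 + E) * (32 * Λ)) := by gcongr; linarith
        _ = 230400 * Λ * (1 + E) * (y * (0 + 1)) := by ring
        _ ≤ _ := by gcongr ?_ * _ * (_ * (?_ + 1)); linarith
  · have a1 : (d : ℝ) ≤ 2 * (ccdh G y + 1) := by exact_mod_cast (by omega)
    have a2 : (prof G d : ℝ) ≤ Fintype.card V := by exact_mod_cast prof_le G d
    calc _ ≤ 2 * (ccdh G y + 1) * (900 * (4 * y) * (1 + E)) := by gcongr; linarith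
      _ = 7200 * (1 + E) * (y * (ccdh G y + 1)) := by ring
      _ ≤ _ := by gcongr; linarith

theorem inst_upper (V : Type) [Fintype V] [Nonempty V] {ε η : ℝ} (e0 : 0 < ε) (e1 : ε < 1)
    (hη : η = ε / (27 * (1 + Real.log (Fintype.card V)))) :
    ∃ A : Alg V (ℝ → ℝ), Fair A ∅ ∧ ∀ G, Solves A G ε ∧
      expectedQueries A G ≤ ENNReal.ofReal (10 ^ 6 / η ^ 20 * inst G η) := by
  have hn : (1 : ℝ) ≤ Fintype.card V := by exact_mod_cast Fintype.card_pos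
  have hl := Real.log_nonneg hn
  set S := Nat.log 2 (Fintype.card V) + 1 with hS'
  have hS : Fintype.card V < 2 ^ S := Nat.lt_pow_succ_log_self one_lt_two _
  set Λ := ⌈(8 * S + 10 : ℝ) / ε⌉₊ with hΛ'
  have hΛ : (8 * S + 10 : ℝ) ≤ ε * Λ := by
    rw [mul_comm ε, ← div_le_iff₀ e0]; exact Nat.le_ceil _
  obtain ⟨l1, l2⟩ := lam_ge hS e1 hΛ
  have l0 : (19 : ℝ) ≤ Λ := by exact_mod_cast l1
  have η0 : 0 < η := by rw [hη]; positivity
  have l3 : (Λ : ℝ) ≤ 1 / η := by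
    have a1 : (Λ : ℝ) ≤ (8 * S + 10) / ε + 1 := (Nat.ceil_lt_add_one (by positivity)).le
    have a2 : (2 : ℝ) ^ Nat.log 2 (Fintype.card V) ≤ Fintype.card V := by
      exact_mod_cast Nat.pow_log_le_self 2 Fintype.card_pos.ne'
    have a3 := Real.log_le_log (by positivity) a2
    rw [Real.log_pow] at a3
    have a4 := Real.log_two_gt_d9
    have a5 : (S : ℝ) = Nat.log 2 (Fintype.card V) + 1 := by rw [hS']; push_cast; rfl
    have a6 : (0 : ℝ) ≤ Nat.log 2 (Fintype.card V) := Nat.cast_nonneg _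
    refine a1.trans ?_
    rw [hη, one_div_div, div_add_one e0.ne']
    gcongr
    nlinarith
  refine ⟨go V Λ S (13 * Λ + 1) 0, fair_go _ _ _ _, fun G => ⟨go_solves G hS e0 e1 hΛ, ?_⟩⟩
  obtain ⟨i1, i2⟩ := dom_inst (G := G) η
  refine (go_queries G l1 l2 ?_ (easy_main hS l1 l2 i1 (i2.anti η0.le
    ((le_one_div η0 (by linarith)).2 l3))) _).trans (ENNReal.ofReal_le_ofReal ?_)
  · have : (1 : ℝ) ≤ Λ ^ 14 := one_le_pow₀ (by linarith)
    nlinarith
  · calc _ = 288000 * (Λ : ℝ) ^ 20 * inst G η := by ring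
      _ ≤ 10 ^ 6 * (1 / η) ^ 20 * inst G η := by gcongr; norm_num
      _ = _ := by field_simp

theorem inst_lower {η ε : ℝ} (η0 : 0 < η) (η1 : η ≤ 1 / 27) (e0 : 0 ≤ ε) (e1 : ε ≤ η / 4)
    {B : Alg V (ℝ → ℝ)} (hB : ∀ G, Solves B G ε) (G : SimpleGraph V) :
    ENNReal.ofReal (η ^ 2 / 10 ^ 6 * inst G η) ≤ 1 + expectedQueries B G := by
  rcases eq_or_ne (expectedQueries B G) ⊤ with c | c
  · rw [c, add_top]; exact le_top
  have E0 := ENNReal.toReal_nonneg (a := expectedQueries B G)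
  have a1 : 1 / η ≤ ⌈1 / η⌉₊ := Nat.le_ceil _
  have a2 : (⌈1 / η⌉₊ : ℝ) ≤ 1 / η + 1 := (Nat.ceil_lt_add_one (by positivity)).le
  generalize ⌈1 / η⌉₊ = Λ at *
  have a3 : 27 ≤ 1 / η := (le_one_div (by norm_num) η0).2 η1
  have l0 : (19 : ℝ) ≤ Λ := by linarith
  have a4 : η * Λ ≤ 28 / 27 := by
    have := mul_le_mul_of_nonneg_left a2 η0.le
    rw [mul_add, mul_one_div_cancel η0.ne'] at this
    linarith
  have p2 : 3 * ε ≤ 1 / Λ := by
    rw [le_div_iff₀ (by linarith)]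
    nlinarith [mul_le_mul_of_nonneg_right e1 (show (0 : ℝ) ≤ Λ by linarith)]
  have Hd := hid_of (G := G) (by rw [div_le_one (by linarith)]; linarith) e0 p2 hB
    (ENNReal.ofReal_toReal c).ge E0
  have h1 := inst_le ((dom_of_hid (by exact_mod_cast l0) E0 Hd).anti (by positivity)
    ((one_div_le (by linarith) η0).2 a1)) (by positivity)
  rw [← ENNReal.ofReal_toReal c, ← ENNReal.ofReal_one, ← ENNReal.ofReal_add zero_le_one E0]
  refine ENNReal.ofReal_le_ofReal ?_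
  generalize (expectedQueries B G).toReal = E at *
  calc _ ≤ η ^ 2 / 10 ^ 6 * (2 * (172800 * Λ ^ 2 * (1 + E))) := by gcongr
    _ = 345600 / 10 ^ 6 * (η * Λ) ^ 2 * (1 + E) := by ring
    _ ≤ 345600 / 10 ^ 6 * (28 / 27) ^ 2 * (1 + E) := by gcongr
    _ ≤ _ := by linarith

end Pool.Agent.MP_16e32a_lc
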