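import Pool.Agent.MP_16e32a_lc.h38.Est

/-! Probes: they return a certified estimate of one value of the degree function, or nothing. -/

set_option autoImplicit false
set_option linter.unusedSectionVars false

open scoped ENNReal Classical
open Finset

noncomputable section

namespace Pool.Agent.MP_16e32a_lc

variable {V α : Type} [Fintype V] [Nonempty V] (G : SimpleGraph V)

def cert (φ Y : ℝ) : Option ℝ :=
  if 2 * φ ≤ Y then some Y else if φ ≤ 1 then some (if Y < 1 / 2 then 0 else Y) else none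

def Gd (β N y : ℝ) : Prop := (1 - 2 * β) * N ≤ y ∧ y ≤ (1 + β) * N

def wrong (β N : ℝ) (o : Option ℝ) : ℝ := if ∃ y, o = some y ∧ ¬ Gd β N y then 1 else 0

def miss (o : Option ℝ) : ℝ := if o = none then 1 else 0

lemma wrong_bd (β N : ℝ) (o : Option ℝ) : 0 ≤ wrong β N o ∧ wrong β N o ≤ 1 := by
  unfold wrong; split_ifs <;> simp

lemma miss_bd (o : Option ℝ) : 0 ≤ miss o ∧ miss o ≤ 1 := by
  unfold miss; split_ifs <;> simp

lemma wrong_none (β N : ℝ) : wrong β N none = 0 := by simp [wrong]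

lemma wrong_some {β N y : ℝ} (h : Gd β N y) : wrong β N (some y) = 0 := by simp [wrong, h]

lemma cert_ok {N : ℕ} {β φ Q Y : ℝ} (b0 : 0 ≤ β) (b1 : β ≤ 1 / 4) (hφ : 1 ≤ φ)
    (q1 : (1 - β) * N ≤ Q) (q2 : Q ≤ N) (h : |Y - Q| ≤ β * max (N : ℝ) φ) :
    wrong β N (cert φ Y) = 0 ∧ (φ ≤ 1 ∨ 4 * φ ≤ N → miss (cert φ Y) = 0) := by
  obtain ⟨h1, h2⟩ := abs_le.1 h
  have N0 : (0 : ℝ) ≤ N := Nat.cast_nonneg _
  rcases le_or_gt φ N with c | c
  · rw [max_eq_left c] at h1 h2
    have g : Gd β N Y := ⟨by linarith, by linarith⟩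
    have g1 : (N : ℝ) / 2 ≤ Y := by nlinarith [g.1]
    unfold cert
    split_ifs with c1 c2 c3
    · exact ⟨wrong_some g, fun _ => by simp [miss]⟩
    · linarith
    · exact ⟨wrong_some g, fun _ => by simp [miss]⟩
    · exact ⟨wrong_none _ _, fun a => by rcases a with a | a <;> linarith⟩
  · rw [max_eq_right c.le] at h1 h2
    have g1 : Y < 2 * φ := by nlinarith
    unfold cert
    rw [if_neg (not_le.2 g1)]
    by_cases c2 : φ ≤ 1
    · have : N = 0 := by
        have : (N : ℝ) < 1 := by linarith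
        exact Nat.lt_one_iff.1 (by exact_mod_cast this)
      subst this
      simp only [Nat.cast_zero] at *
      rw [if_pos c2, if_pos (by nlinarith)]
      exact ⟨wrong_some ⟨by simp, by simp⟩, fun _ => by simp [miss]⟩
    · rw [if_neg c2]
      exact ⟨wrong_none _ _, fun a => by rcases a with a | a <;> linarith⟩

lemma cert_ex (t : Alg V ℝ) {N : ℕ} {β φ Q δ : ℝ} (b0 : 0 ≤ β) (b1 : β ≤ 1 / 4) (hφ : 1 ≤ φ)
    (q1 : (1 - β) * N ≤ Q) (q2 : Q ≤ N)
    (h : ex G t (fun Y => if |Y - Q| ≤ β * max (N : ℝ) φ then 0 else 1) ≤ δ) :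
    ex G (t.bind fun Y => .ret (cert φ Y)) (wrong β N) ≤ δ ∧
      (φ ≤ 1 ∨ 4 * φ ≤ N → ex G (t.bind fun Y => .ret (cert φ Y)) miss ≤ δ) := by
  simp only [ex_bind, ex]
  refine ⟨(ex_mono G t fun Y => ?_).trans h, fun c => (ex_mono G t fun Y => ?_).trans h⟩
  · split_ifs with a
    · exact (cert_ok b0 b1 hφ q1 q2 a).1.le
    · exact (wrong_bd _ _ _).2
  · split_ifs with a
    · exact ((cert_ok b0 b1 hφ q1 q2 a).2 c).le
    · exact (miss_bd _).2

def dprobe (V : Type) [Fintype V] (Λ : ℕ) (x φ : ℝ) : Alg V (Option ℝ) :=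
  (est (dblk x) ⌈2 * Fintype.card V * (Λ : ℝ) ^ 9 / φ⌉₊).bind fun Y => .ret (cert φ Y)

def rr (V : Type) [Fintype V] (Λ : ℕ) (y : ℝ) : ℕ := ⌈32 * Fintype.card V * (Λ : ℝ) ^ 11 / y⌉₊

def eprobe (V : Type) [Fintype V] (Λ : ℕ) (x y : ℝ) (θ : ℕ) (φ : ℝ) : Alg V (Option ℝ) :=
  (est (dblk (θ + 1)) (rr V Λ y)).bind fun Z => if Z ≤ (1 + 1 / Λ / 2) * y then
    (est (eblk x θ (2 * Λ ^ 2) φ) (rr V Λ y)).bind fun Y => .ret (cert φ Y) else .ret none

variable {Λ θ : ℕ} {x y φ : ℝ}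

lemma noCoin_dprobe : NoCoin (dprobe V Λ x φ) := ((noCoin_dblk _).est _).bind fun _ => trivial

lemma noCoin_eprobe : NoCoin (eprobe V Λ x y θ φ) := ((noCoin_dblk _).est _).bind fun _ => by
  split_ifs
  · exact (noCoin_eblk.est _).bind fun _ => trivial
  · trivial

lemma dprobe_ok (hΛ : 19 ≤ Λ) (hφ : 1 ≤ φ) :
    ex G (dprobe V Λ x φ) (wrong (1 / Λ) (ccdh G x)) ≤ 1 / Λ ^ 7 ∧
      (φ ≤ 1 ∨ 4 * φ ≤ ccdh G x → ex G (dprobe V Λ x φ) miss ≤ 1 / Λ ^ 7) := by
  have l0 : (19 : ℝ) ≤ Λ := by exact_mod_cast hΛ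
  have hn : (0 : ℝ) < Fintype.card V := by exact_mod_cast Fintype.card_pos
  have h1 := Nat.le_ceil (2 * Fintype.card V * (Λ : ℝ) ^ 9 / φ)
  have h2 : (0 : ℝ) < ⌈2 * Fintype.card V * (Λ : ℝ) ^ 9 / φ⌉₊ := lt_of_lt_of_le (by positivity) h1
  have b0 : (0 : ℝ) < 1 / Λ := by positivity
  refine cert_ex G _ b0.le (by rw [div_le_div_iff₀ (by linarith) (by norm_num)]; linarith) hφ
    (by nlinarith [Nat.cast_nonneg (α := ℝ) (ccdh G x)]) le_rfl
    ((dir_cheb G x (by exact_mod_cast h2) (by linarith) b0).trans ?_)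
  calc _ ≤ 2 * Fintype.card V * (1 / φ) /
        (2 * Fintype.card V * (Λ : ℝ) ^ 9 / φ * (1 / Λ) ^ 2) := by gcongr
    _ = _ := by field_simp

lemma dprobe_cost (hφ : 1 ≤ φ) :
    ecost G (dprobe V Λ x φ) ≤ 4 * Fintype.card V * (Λ : ℝ) ^ 9 / φ + 2 := by
  have := (Nat.ceil_lt_add_one (show 0 ≤ 2 * Fintype.card V * (Λ : ℝ) ^ 9 / φ by positivity)).le
  simp only [dprobe, ecost_bind, ecost, ex_const, ecost_est, ecost_dblk]
  have e : 4 * Fintype.card V * (Λ : ℝ) ^ 9 / φ = 2 * (2 * Fintype.card V * (Λ : ℝ) ^ 9 / φ) := by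
    ring
  linarith

lemma eprobe_ok (hΛ : 19 ≤ Λ) (hφ : 1 ≤ φ) (hy : 0 < y) (hx : x = (1 + 1 / Λ) ^ 2 * y) :
    ex G (eprobe V Λ x y θ φ) (wrong (1 / Λ) (ccdh G x)) ≤ 1 / Λ ^ 7 ∧
      (φ ≤ 1 ∨ 4 * φ ≤ ccdh G x → ccdh G (θ + 1) ≤ y →
        ex G (eprobe V Λ x y θ φ) miss ≤ 2 / Λ ^ 7) := by
  have l0 : (19 : ℝ) ≤ Λ := by exact_mod_cast hΛ
  have hn : (0 : ℝ) < Fintype.card V := by exact_mod_cast Fintype.card_pos
  have h1 : _ ≤ (rr V Λ y : ℝ) := Nat.le_ceil _
  have h2 : (0 : ℝ) < rr V Λ y := lt_of_lt_of_le (by positivity) h1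
  have h3 : 0 < rr V Λ y := by exact_mod_cast h2
  have b0 : (0 : ℝ) < 1 / Λ := by positivity
  have b1 : (1 / Λ : ℝ) ≤ 1 / 4 := by rw [div_le_div_iff₀ (by linarith) (by norm_num)]; linarith
  have xy : y ≤ x := by rw [hx]; nlinarith [mul_pos b0 hy, mul_pos (mul_pos b0 b0) hy]
  have x0 : 0 < x := by linarith
  have T := (dir_cheb G (θ + 1) (γ := 1 / Λ / 4) h3 hy (by positivity)).trans
    (show _ ≤ 1 / (Λ : ℝ) ^ 7 from calc
      _ ≤ 2 * Fintype.card V * (1 / y) /
        (32 * Fintype.card V * (Λ : ℝ) ^ 11 / y * (1 / Λ / 4) ^ 2) := by gcongr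
      _ = 1 / Λ ^ 9 := by field_simp; norm_num
      _ ≤ _ := by gcongr <;> linarith)
  have I : (1 + 1 / Λ : ℝ) * ccdh G (θ + 1) ≤ x → _ := fun h => by
    have q := QQ_bd G (θ := θ) (L := 2 * Λ ^ 2) x0 b0 (by linarith)
      (le_of_eq (by push_cast; field_simp)) h
    have N0 : (0 : ℝ) ≤ ccdh G x := Nat.cast_nonneg _
    exact cert_ex G (est (eblk x θ (2 * Λ ^ 2) φ) (rr V Λ y)) (δ := 1 / Λ ^ 7) b0.le b1 hφ q.1 q.2
      ((cheb G _ (s := (2 * Λ ^ 2 : ℕ) / x * (φ + ccdh G x) * ccdh G x) h3 (by positivity)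
        (ex_eblk G (by linarith)) ((ex_eblk_sq G x0 (by linarith)).trans (by gcongr; exact q.2))).trans
        ((var_le N0 (by linarith) b0 h2 hn.le (by positivity)).trans (calc
          _ ≤ 2 * Fintype.card V * ((2 * Λ ^ 2 : ℕ) / y) /
            (32 * Fintype.card V * (Λ : ℝ) ^ 11 / y * (1 / Λ) ^ 2) := by gcongr
          _ = 1 / 8 * (1 / Λ ^ 7) := by push_cast; field_simp; norm_num
          _ ≤ _ := by
            have : (0 : ℝ) ≤ 1 / Λ ^ 7 := by positivity
            linarith)))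
  have d0 : (0 : ℝ) ≤ 1 / Λ ^ 7 := by positivity
  unfold eprobe
  rw [ex_bind, ex_bind]
  generalize (1 / Λ : ℝ) = β at *
  generalize (ccdh G (θ + 1) : ℝ) = N at *
  refine ⟨?_, fun c hN => ?_⟩
  · by_cases h : (1 + β) * N ≤ x
    · refine (ex_mono G _ fun Z => ?_).trans (ex_const G _ _).le
      split_ifs
      · exact (I h).1
      · simpa only [ex, wrong_none] using d0
    · have h4 : (1 + β) * y < N := by
        by_contra hc
        exact h (by rw [hx]; nlinarith)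
      refine (ex_mono G _ fun Z => ?_).trans T
      rw [max_eq_left (by nlinarith)]
      split_ifs with c1 c2 c2
      · have := (abs_le.1 c2).1
        nlinarith [mul_pos b0 hy, mul_lt_mul_of_pos_left h4 (show 0 < 1 - β / 4 by linarith),
          mul_nonneg (mul_pos b0 hy).le (show 0 ≤ 1 - β by linarith)]
      · exact (ex_mono G _ fun o => (wrong_bd _ _ o).2).trans (ex_const G _ _).le
      · simp only [ex, wrong_none, le_refl]
      · simp only [ex, wrong_none, zero_le_one]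
  · have h := (I (by rw [hx]; nlinarith [mul_pos b0 hy])).2 c
    rw [show (2 : ℝ) / Λ ^ 7 = 1 / Λ ^ 7 + 1 / Λ ^ 7 by ring]
    refine le_trans (ex_mono G _ fun Z => ?_) ((ex_add G _ _ _).trans_le
      (add_le_add T (ex_const G _ _).le))
    rw [max_eq_right hN]
    split_ifs with c1 c2 c2
    · linarith
    · linarith
    · have := (abs_le.1 c2).2
      nlinarith [mul_pos b0 hy]
    · simp only [ex, miss, if_true]; linarith

lemma eprobe_cost (hφ : 1 ≤ φ) : ecost G (eprobe V Λ x y θ φ) ≤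
    rr V Λ y * (4 + (2 + 4 * Λ ^ 2) * (1 + mR G θ / (Fintype.card V * φ))) := by
  have h := ecost_eblk G (x := x) (θ := θ) (L := 2 * Λ ^ 2) (φ := φ) (by linarith)
  have h0 := ecost_nonneg G (eblk x θ (2 * Λ ^ 2) φ)
  have r0 : (0 : ℝ) ≤ rr V Λ y := Nat.cast_nonneg _
  unfold eprobe
  rw [ecost_bind, ecost_est, ecost_dblk]
  have := (ex_mono G (est (dblk (θ + 1)) (rr V Λ y)) (f := fun Z => ecost G
    (if Z ≤ (1 + 1 / Λ / 2) * y then (est (eblk x θ (2 * Λ ^ 2) φ) (rr V Λ y)).bind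
      fun Y => .ret (cert φ Y) else .ret none))
    (g := fun _ => rr V Λ y * ecost G (eblk x θ (2 * Λ ^ 2) φ)) fun Z => by
      split_ifs
      · simp only [ecost_bind, ecost, ex_const, ecost_est, add_zero, le_refl]
      · simp only [ecost]; positivity).trans (ex_const G _ _).le
  push_cast at h
  nlinarith [mul_le_mul_of_nonneg_left h r0]

def xs (Λ i : ℕ) : ℝ := (1 + 1 / Λ) ^ i / 2

def probe (V : Type) [Fintype V] (Λ i l e : ℕ) : Alg V (Option ℝ) :=
  if e = 0 then dprobe V Λ (xs Λ i) (2 ^ l)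
  else eprobe V Λ (xs Λ i) (xs Λ i / (1 + 1 / Λ) ^ 2) (2 ^ (e - 1) - 1) (2 ^ l)

lemma xs_pos (i : ℕ) : 0 < xs Λ i := by unfold xs; positivity

lemma noCoin_probe (i l e : ℕ) : NoCoin (probe V Λ i l e) := by
  unfold probe; split_ifs
  exacts [noCoin_dprobe, noCoin_eprobe]

lemma probe_sound (hΛ : 19 ≤ Λ) (i l e : ℕ) :
    ex G (probe V Λ i l e) (wrong (1 / Λ) (ccdh G (xs Λ i))) ≤ 1 / Λ ^ 7 := by
  have := xs_pos (Λ := Λ) i
  unfold probe; split_ifs
  · exact (dprobe_ok G hΛ (one_le_pow₀ one_le_two)).1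
  · exact (eprobe_ok G hΛ (one_le_pow₀ one_le_two) (by positivity) (by field_simp)).1

lemma ex_trunc_le (a0 : α) (t : Alg V α) {f : α → ℝ} (h0 : ∀ a, 0 ≤ f a) (h1 : f a0 = 0) (q : ℕ) :
    ex G (trunc a0 t q) f ≤ ex G t f := by
  induction t generalizing q with
  | ret a => exact le_rfl
  | vertex k ih => cases q with
    | zero => exact h1.le.trans (ex_nonneg G _ h0)
    | succ q => exact avg_mono _ fun v _ => ih v q
  | degree v k ih => cases q with
    | zero => exact h1.le.trans (ex_nonneg G _ h0)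
    | succ q => exact ih _ q
  | neighbour v k ih => cases q with
    | zero => exact h1.le.trans (ex_nonneg G _ h0)
    | succ q => exact avg_mono _ fun v _ => ih v q
  | coin p k ih => exact ih 0 q

lemma ecost_trunc (a0 : α) (t : Alg V α) (q : ℕ) : ecost G (trunc a0 t q) ≤ q := by
  induction t generalizing q with
  | ret a => exact Nat.cast_nonneg _
  | vertex k ih => cases q with
    | zero => simp [trunc, ecost]
    | succ q =>
      have := (avg_mono univ fun v _ => ih v q).trans (avg_const univ_nonempty _).le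
      simp only [trunc, ecost]; push_cast; linarith
  | degree v k ih => cases q with
    | zero => simp [trunc, ecost]
    | succ q =>
      have := ih (G.degree v) q
      simp only [trunc, ecost]; push_cast; linarith
  | neighbour v k ih => cases q with
    | zero => simp [trunc, ecost]
    | succ q =>
      have := (avg_mono _ fun v _ => ih v q).trans (avg_const (nbrs_nonempty G v) _).le
      simp only [trunc, ecost]; push_cast; linarith
  | coin p k ih => exact ih 0 q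

lemma miss_trunc (t : Alg V (Option ℝ)) (q : ℕ) :
    ex G (trunc none t q) miss ≤ ex G t miss + ecost G t / (q + 1) := by
  have h := ex_trunc G none t (f := fun o => 1 + -1 * miss o)
    (fun o => by linarith [(miss_bd o).2]) (fun o => by linarith [(miss_bd o).1]) q
  simp only [ex_add, ex_const, ex_mul] at h
  have q0 : (0 : ℝ) < q + 1 := by positivity
  rw [← sub_le_iff_le_add', le_div_iff₀ q0]
  change _ * (1 + -1 * ex G t miss) ≤ _ * (1 + -1 * ex G (trunc none t q) miss) + _ at h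
  linarith

lemma expected_eq {t : Alg V α} (ht : NoCoin t) :
    ∑' x, run G t x * (x.2 : ℝ≥0∞) = ENNReal.ofReal (ecost G t) := by
  have bd : ∀ {β : Type} (p : PMF β) (f : β → PMF (α × ℕ)),
      ∑' x, p.bind f x * (x.2 : ℝ≥0∞) = ∑' b, p b * ∑' x, f b x * (x.2 : ℝ≥0∞) := by
    intro β p f
    simp only [PMF.bind_apply, ← ENNReal.tsum_mul_right, ← ENNReal.tsum_mul_left, mul_assoc]
    exact ENNReal.tsum_comm
  have pu : ∀ y : α × ℕ, ∑' x, PMF.pure y x * (x.2 : ℝ≥0∞) = y.2 := fun y => by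
    rw [tsum_eq_single y fun b hb => by simp [PMF.pure_apply_of_ne _ _ hb]]; simp
  have tk : ∀ p : PMF (α × ℕ), ∑' x, tick p x * (x.2 : ℝ≥0∞) = 1 + ∑' x, p x * (x.2 : ℝ≥0∞) := by
    intro p
    rw [tick, ← PMF.bind_pure_comp, bd]
    simp only [Function.comp, pu, Nat.cast_add, Nat.cast_one, mul_add, mul_one, ENNReal.tsum_add,
      p.tsum_coe, add_comm]
  have o1 : ∀ c : ℝ, 0 ≤ c → 1 + ENNReal.ofReal c = ENNReal.ofReal (1 + c) := fun c h => by
    rw [ENNReal.ofReal_add zero_le_one h]; simp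
  have av : ∀ {β : Type} (s : Finset β) (g : β → ℝ), s.Nonempty →
      1 + avg s g = avg s fun b => 1 + g b := fun s g h => by
    rw [avg_add _ (fun _ => 1), avg_const h]
  induction t with
  | ret a => simp only [run, pu, ecost]; simp
  | vertex k ih =>
    simp only [run, ecost, bd, tk]
    rw [av _ _ univ_nonempty, ofReal_avg univ_nonempty fun v _ =>
      add_nonneg zero_le_one (ecost_nonneg G _), tsum_fintype, mul_sum]
    exact sum_congr rfl fun v _ => by
      rw [ih v (ht v), PMF.uniformOfFintype_apply, card_univ, o1 _ (ecost_nonneg G _)]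
  | degree v k ih =>
    simp only [run, ecost, tk]
    rw [ih _ (ht _), o1 _ (ecost_nonneg G _)]
  | neighbour v k ih =>
    simp only [run, ecost, bd, tk, tsum_randNbr]
    rw [av _ _ (nbrs_nonempty G v), ofReal_avg (nbrs_nonempty G v) fun v _ =>
      add_nonneg zero_le_one (ecost_nonneg G _), nbrs]
    split_ifs with h
    · simp [ih _ (ht _), o1 _ (ecost_nonneg G _)]
    · simp only [card_map, sum_map, Function.Embedding.some_apply, ih _ (ht _),
        o1 _ (ecost_nonneg G _)]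
      rfl
  | coin p k ih => exact ht.elim

end Pool.Agent.MP_16e32a_lc
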