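import Pool.Agent.MP_16e32a_lc.h38.Probe

/-! The algorithm: run all probes with a budget that doubles until every window is covered. -/

set_option autoImplicit false
set_option linter.unusedSectionVars false

open scoped ENNReal Classical
open Finset

noncomputable section

namespace Pool.Agent.MP_16e32a_lc

variable {V : Type} [Fintype V] [Nonempty V] (G : SimpleGraph V)

def seq : List (ℕ × Alg V (Option ℝ)) → Alg V (ℕ → Option ℝ)
  | [] => .ret fun _ => none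
  | p :: l => p.2.bind fun o => (seq l).bind fun T =>
      .ret fun j => if j = p.1 ∧ o ≠ none then o else T j

def Bad (β : ℝ) (N : ℕ → ℝ) (T : ℕ → Option ℝ) : Prop := ∃ i y, T i = some y ∧ ¬ Gd β (N i) y

lemma noCoin_seq : ∀ l : List (ℕ × Alg V (Option ℝ)), (∀ p ∈ l, NoCoin p.2) → NoCoin (seq l)
  | [], _ => trivial
  | p :: l, h => (h p (by simp)).bind fun _ =>
    (noCoin_seq l fun q hq => h q (by simp [hq])).bind fun _ => trivial

lemma seq_wrong {β δ : ℝ} {N : ℕ → ℝ} : ∀ l : List (ℕ × Alg V (Option ℝ)),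
    (∀ p ∈ l, ex G p.2 (wrong β (N p.1)) ≤ δ) →
      ex G (seq l) (fun T => if Bad β N T then 1 else 0) ≤ l.length * δ
  | [], _ => by simp [seq, ex, Bad]
  | p :: l, h => by
    have h1 := seq_wrong l fun q hq => h q (by simp [hq])
    have h2 := h p (by simp)
    simp only [seq, ex_bind, ex, List.length_cons]
    refine (ex_mono G _ (g := fun o => wrong β (N p.1) o + l.length * δ) fun o => ?_).trans ?_
    · refine (ex_mono G _ (g := fun T => wrong β (N p.1) o + if Bad β N T then 1 else 0)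
        fun T => ?_).trans ?_
      · have := (wrong_bd β (N p.1) o).1
        split_ifs with c1 c2 c2
        · linarith
        · obtain ⟨i, y, a, b⟩ := c1
          simp only at a
          split_ifs at a with c
          · rw [wrong, if_pos ⟨y, a, c.1 ▸ b⟩]; simp
          · exact absurd ⟨i, y, a, b⟩ c2
        · linarith
        · linarith
      · rw [ex_add, ex_const]; linarith
    · rw [ex_add, ex_const]; push_cast; linarith

lemma seq_miss {p : ℕ × Alg V (Option ℝ)} : ∀ l : List (ℕ × Alg V (Option ℝ)), p ∈ l →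
    ex G (seq l) (fun T => miss (T p.1)) ≤ ex G p.2 miss
  | [], h => by simp at h
  | q :: l, h => by
    simp only [seq, ex_bind, ex]
    rcases List.mem_cons.1 h with rfl | h
    · refine ex_mono G _ fun o => (ex_mono G _ fun T => ?_).trans (ex_const G _ _).le
      cases o with
      | none => simpa [miss] using (miss_bd _).2
      | some y => simp
    · refine (ex_mono G _ fun o => (ex_mono G _ fun T => ?_).trans (seq_miss l h)).trans
        (ex_const G _ _).le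
      split_ifs with c
      · rw [miss, if_neg c.2]; exact (miss_bd _).1
      · rfl

lemma seq_cost {q : ℝ} : ∀ l : List (ℕ × Alg V (Option ℝ)), (∀ p ∈ l, ecost G p.2 ≤ q) →
    ecost G (seq l) ≤ l.length * q
  | [], _ => by simp [seq, ecost]
  | p :: l, h => by
    have h1 := seq_cost l fun q hq => h q (by simp [hq])
    have h2 := h p (by simp)
    simp only [seq, ecost_bind, ecost, ex_const, List.length_cons]
    push_cast; linarith

def plist (V : Type) [Fintype V] (Λ q : ℕ) : List (ℕ × Alg V (Option ℝ)) :=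
  (range (Λ ^ 2) ×ˢ range Λ ×ˢ range Λ).toList.map fun c =>
    (c.1, trunc none (probe V Λ c.1 c.2.1 c.2.2) q)

lemma plist_len (Λ q : ℕ) : ((plist V Λ q).length : ℝ) = Λ ^ 4 := by
  simp [plist]; ring

def Cov (n : ℝ) (Λ S : ℕ) (T : ℕ → Option ℝ) : Prop :=
  ∀ j, j ≤ Λ * (S + 1) → (1 + 1 / Λ : ℝ) ^ j ≤ 4 * n → ∃ i, j ≤ i ∧ i ≤ j + 4 * S + 4 ∧ T i ≠ none

def outp (n : ℝ) (Λ : ℕ) (T : ℕ → Option ℝ) : ℝ → ℝ := fun x =>
  if x = 0 then n else if n < x then 0 else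
    (T (sInf {i | idx (1 / Λ) (max (2 * x) 1) ≤ i ∧ T i ≠ none})).getD 0

lemma pow_le_lin {β : ℝ} (b0 : 0 ≤ β) : ∀ m : ℕ, 2 * m * β ≤ 1 → (1 + β) ^ m ≤ 1 + 2 * m * β
  | 0, _ => by simp
  | m + 1, h => by
    push_cast at h ⊢
    have := pow_le_lin b0 m (by linarith)
    rw [pow_succ]
    nlinarith [mul_le_mul_of_nonneg_right this (show 0 ≤ 1 + β by linarith),
      mul_le_mul_of_nonneg_right h b0, mul_nonneg b0 b0]

variable {Λ S : ℕ} {ε : ℝ}

lemma lam_ge (hS : Fintype.card V < 2 ^ S) (e1 : ε < 1) (hΛ : 8 * S + 10 ≤ ε * Λ) :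
    19 ≤ Λ ∧ 8 * S + 10 < Λ := by
  have h1 : 1 ≤ S := by
    rcases S with _ | S
    · have := Fintype.card_pos (α := V); omega
    · omega
  have h2 : (8 * S + 10 : ℝ) < Λ := by
    have : (0 : ℝ) < Λ := by
      rcases (Nat.cast_nonneg (α := ℝ) Λ).eq_or_lt with h | h
      · rw [← h] at hΛ; linarith [Nat.cast_nonneg (α := ℝ) S]
      · exact h
    nlinarith
  have h3 : 8 * S + 10 < Λ := by exact_mod_cast h2
  omega

lemma outp_ok (hS : Fintype.card V < 2 ^ S) (e0 : 0 < ε) (e1 : ε < 1) (hΛ : 8 * S + 10 ≤ ε * Λ)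
    {T : ℕ → Option ℝ} (hc : Cov (Fintype.card V) Λ S T)
    (hb : ¬ Bad (1 / Λ) (fun i => ccdh G (xs Λ i)) T) :
    IsEstimate G ε (outp (Fintype.card V) Λ T) := by
  have l0 : (19 : ℝ) ≤ Λ := by exact_mod_cast (lam_ge hS e1 hΛ).1
  have hn : (1 : ℝ) ≤ Fintype.card V := by exact_mod_cast Fintype.card_pos
  intro x hx
  unfold outp
  split_ifs with h0 h1
  · have : ccdh G 0 = Fintype.card V := by simp [ccdh]
    simp only [h0, mul_zero, this]
    constructor <;> nlinarith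
  · have : ccdh G ((1 + ε) * x) = 0 := by
      rw [ccdh, card_eq_zero, filter_eq_empty_iff]
      intro v _ hv
      have : (G.degree v : ℝ) < Fintype.card V := by exact_mod_cast G.degree_lt_card_verts v
      nlinarith
    rw [this]
    exact ⟨by simp, by positivity⟩
  have x0 : 0 < x := lt_of_le_of_ne hx (Ne.symm h0)
  have b0 : (0 : ℝ) < 1 / Λ := by positivity
  have b1 : (1 / Λ : ℝ) * Λ = 1 := by field_simp
  have s0 : (0 : ℝ) ≤ S := Nat.cast_nonneg _
  have b2 : 2 * (4 * S + 5 : ℕ) * (1 / Λ : ℝ) ≤ ε := by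
    rw [mul_one_div, div_le_iff₀ (by linarith)]; push_cast; linarith
  have b3 := (pow_le_lin b0.le _ (b2.trans e1.le)).trans (add_le_add le_rfl b2)
  have b4 : 2 * (1 / Λ : ℝ) ≤ ε := by push_cast at b2; nlinarith
  have z1 := le_max_left (2 * x) 1
  have z2 := le_max_right (2 * x) 1
  have z3 : max (2 * x) 1 ≤ 2 * Fintype.card V := max_le (by linarith) (by linarith)
  have j1 : idx (1 / Λ) (max (2 * x) 1) ≤ Λ * (S + 1) := Nat.sInf_le (by
    have a1 : (2 : ℝ) ≤ (1 + 1 / Λ) ^ Λ := by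
      have := one_add_mul_le_pow (a := (1 / Λ : ℝ)) (by linarith) Λ
      linarith
    have a2 : (Fintype.card V : ℝ) < 2 ^ S := by exact_mod_cast hS
    show max (2 * x) 1 ≤ (1 + 1 / Λ : ℝ) ^ (Λ * (S + 1))
    rw [pow_mul]
    refine le_trans ?_ (pow_le_pow_left₀ (by norm_num) a1 _)
    rw [pow_succ]; linarith)
  have j2 := idx_spec b0 (max (2 * x) 1)
  have j3 : (1 + 1 / Λ : ℝ) ^ idx (1 / Λ) (max (2 * x) 1) ≤ (1 + 1 / Λ) * max (2 * x) 1 := by
    rcases hi : idx (1 / Λ) (max (2 * x) 1) with _ | i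
    · rw [pow_zero]; nlinarith
    · have := idx_lt hi
      rw [pow_succ']; gcongr
  generalize idx (1 / Λ) (max (2 * x) 1) = j at *
  obtain ⟨i0, i1, i2, i3⟩ := hc j j1 (by nlinarith)
  have i4 := Nat.sInf_mem (s := {i | j ≤ i ∧ T i ≠ none}) ⟨i0, i1, i3⟩
  have i5 := Nat.sInf_le (s := {i | j ≤ i ∧ T i ≠ none}) ⟨i1, i3⟩
  generalize sInf {i | j ≤ i ∧ T i ≠ none} = i at *
  obtain ⟨y, hy⟩ := Option.ne_none_iff_exists'.1 i4.2
  have g : Gd (1 / Λ) (ccdh G (xs Λ i)) y := by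
    by_contra hg
    exact hb ⟨i, y, hy, hg⟩
  rw [hy, Option.getD_some]
  have r1 : (1 : ℝ) ≤ 1 + 1 / Λ := by linarith
  have k1 : max (2 * x) 1 ≤ 2 * xs Λ i := by
    have := pow_le_pow_right₀ r1 i4.1
    unfold xs; linarith
  have k2 : 2 * xs Λ i ≤ (1 + ε) * max (2 * x) 1 := by
    have a1 := pow_le_pow_right₀ r1 (show i ≤ 4 * S + 4 + j by omega)
    rw [pow_add] at a1
    rw [pow_succ] at b3
    have a2 := mul_le_mul_of_nonneg_left j3 (show 0 ≤ (1 + 1 / Λ : ℝ) ^ (4 * S + 4) by positivity)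
    have a3 := mul_le_mul_of_nonneg_right b3 (show 0 ≤ max (2 * x) 1 by linarith)
    unfold xs; linarith
  have k3 : (ccdh G (xs Λ i) : ℝ) ≤ ccdh G ((1 - ε) * x) := by
    exact_mod_cast ccdh_anti G (by nlinarith)
  have k4 : (ccdh G ((1 + ε) * x) : ℝ) ≤ ccdh G (xs Λ i) := by
    rcases le_total (2 * x) 1 with c | c
    · rw [max_eq_right c] at k2
      rw [ccdh_eq, ccdh_eq]
      exact_mod_cast prof_anti G ((Nat.ceil_le.2 (by push_cast; linarith)).trans
        (Nat.ceil_pos.2 (by positivity)))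
    · rw [max_eq_left c] at k2
      exact_mod_cast ccdh_anti G (by linarith)
  have k5 : (0 : ℝ) ≤ ccdh G ((1 + ε) * x) := Nat.cast_nonneg _
  constructor <;> nlinarith [g.1, g.2]

def go (V : Type) [Fintype V] (Λ S : ℕ) : ℕ → ℕ → Alg V (ℝ → ℝ)
  | 0, _ => .ret 0
  | f + 1, k => (seq (plist V Λ (2 ^ k))).bind fun T =>
      if Cov (Fintype.card V) Λ S T then .ret (outp (Fintype.card V) Λ T) else go V Λ S f (k + 1)

lemma noCoin_go : ∀ f k, NoCoin (go V Λ S f k)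
  | 0, _ => trivial
  | f + 1, k => (noCoin_seq _ fun p hp => by
      obtain ⟨c, -, rfl⟩ := List.mem_map.1 hp
      exact (noCoin_probe _ _ _).trunc _ _).bind fun T => by
    split_ifs
    · trivial
    · exact noCoin_go f (k + 1)

def unc (Λ S k : ℕ) : ℝ :=
  ex G (seq (plist V Λ (2 ^ k))) fun T => if Cov (Fintype.card V) Λ S T then 0 else 1

def Easy (Λ S : ℕ) (c : ℝ) : Prop :=
  ∀ j, ∃ i l e, j ≤ Λ * (S + 1) → (1 + 1 / Λ : ℝ) ^ j ≤ 4 * Fintype.card V →
    j ≤ i ∧ i ≤ j + 4 * S + 4 ∧ l < Λ ∧ e < Λ ∧ ex G (probe V Λ i l e) miss ≤ 2 / Λ ^ 7 ∧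
      ecost G (probe V Λ i l e) ≤ c

lemma unc_le (h1 : 19 ≤ Λ) (h2 : 8 * S + 10 < Λ) {c : ℝ} (c0 : 0 ≤ c) (hE : Easy G Λ S c) {k : ℕ}
    (hk : 8 * c * Λ ^ 2 ≤ 2 ^ k) : unc G Λ S k ≤ 1 / 4 := by
  have l0 : (19 : ℝ) ≤ Λ := by exact_mod_cast h1
  choose i l e h using hE
  have hw : Λ * (S + 1) + 4 * S + 4 < Λ ^ 2 := by nlinarith
  set J := (range (Λ * (S + 1) + 1)).filter fun j => (1 + 1 / Λ : ℝ) ^ j ≤ 4 * Fintype.card V
    with hJ
  have a1 : unc G Λ S k ≤ ex G (seq (plist V Λ (2 ^ k))) fun T => ∑ j ∈ J, miss (T (i j)) := by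
    refine ex_mono G _ fun T => ?_
    split_ifs with c
    · exact sum_nonneg fun j _ => (miss_bd _).1
    · unfold Cov at c
      push Not at c
      obtain ⟨j, j1, j2, j3⟩ := c
      refine le_trans ?_ (single_le_sum (f := fun j => miss (T (i j))) (fun j _ => (miss_bd _).1)
        (mem_filter.2 ⟨mem_range.2 (Nat.lt_succ_of_le j1), j2⟩))
      rw [miss, if_pos (j3 _ (h j j1 j2).1 (h j j1 j2).2.1)]
  rw [ex_sum] at a1
  have a2 : ∀ j ∈ J, (ex G (seq (plist V Λ (2 ^ k))) fun T => miss (T (i j))) ≤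
      1 / (4 * Λ ^ 2) := by
    intro j hj
    rw [mem_filter, mem_range] at hj
    obtain ⟨b1, b2, b3, b4, b5, b6⟩ := h j (by omega) hj.2
    have := (seq_miss G (p := (i j, trunc none (probe V Λ (i j) (l j) (e j)) (2 ^ k)))
      (plist V Λ (2 ^ k)) (List.mem_map.2 ⟨(i j, l j, e j), by
        simp only [mem_toList, mem_product, mem_range]; omega, rfl⟩)).trans (miss_trunc G _ _)
    refine this.trans ?_
    have d1 : (2 : ℝ) / Λ ^ 7 ≤ 1 / (8 * Λ ^ 2) := by
      rw [div_le_div_iff₀ (by positivity) (by positivity)]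
      have : (16 : ℝ) ≤ Λ ^ 5 := le_trans (by linarith) (le_self_pow₀ (by linarith) (by norm_num))
      nlinarith [mul_le_mul_of_nonneg_right this (show (0 : ℝ) ≤ Λ ^ 2 by positivity)]
    have d2 : ecost G (probe V Λ (i j) (l j) (e j)) / ((2 ^ k : ℕ) + 1) ≤ 1 / (8 * Λ ^ 2) := by
      rw [div_le_div_iff₀ (by positivity) (by positivity)]
      push_cast
      nlinarith [mul_le_mul_of_nonneg_right b6 (show (0 : ℝ) ≤ 8 * Λ ^ 2 by positivity)]
    have : (1 : ℝ) / (4 * Λ ^ 2) = 1 / (8 * Λ ^ 2) + 1 / (8 * Λ ^ 2) := by field_simp; norm_num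
    linarith
  have a3 : (J.card : ℝ) ≤ Λ ^ 2 := by
    have := (card_filter_le _ _).trans_eq (card_range (Λ * (S + 1) + 1)) (c := Λ * (S + 1) + 1)
      (a := J.card)
    exact_mod_cast (show J.card ≤ Λ ^ 2 by omega)
  refine a1.trans ((sum_le_card_nsmul _ _ _ a2).trans ?_)
  rw [nsmul_eq_mul, mul_one_div, div_le_div_iff₀ (by positivity) (by norm_num)]
  linarith

lemma unc_le_one (k : ℕ) : unc G Λ S k ≤ 1 :=
  (ex_mono G _ fun T => by split_ifs <;> simp).trans (ex_const G _ 1).le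

lemma go_cost {Q : ℝ} (hQ : ∀ k : ℕ, Q ≤ 2 ^ k → unc G Λ S k ≤ 1 / 4) : ∀ f k : ℕ,
    ecost G (go V Λ S f k) ≤ Λ ^ 4 * max (2 * 2 ^ k) (6 * Q - 2 ^ k)
  | 0, k => mul_nonneg (by positivity) (le_max_of_le_left (by positivity))
  | f + 1, k => by
    have h1 := go_cost hQ f (k + 1)
    have h0 := ecost_nonneg G (go V Λ S f (k + 1))
    have h2 := seq_cost G (q := (2 ^ k : ℕ)) (plist V Λ (2 ^ k)) fun p hp => by
      obtain ⟨c, -, rfl⟩ := List.mem_map.1 hp
      exact ecost_trunc G _ _ _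
    rw [plist_len] at h2
    have h3 : (ex G (seq (plist V Λ (2 ^ k))) fun T => ecost G (if Cov (Fintype.card V) Λ S T then
        .ret (outp (Fintype.card V) Λ T) else go V Λ S f (k + 1))) =
        ecost G (go V Λ S f (k + 1)) * unc G Λ S k := by
      rw [unc, ← ex_mul]
      congr 1; funext T
      split_ifs <;> simp [ecost]
    rw [go, ecost_bind, h3]
    push_cast at h2
    rw [pow_succ (2 : ℝ) k] at h1
    have z0 : (0 : ℝ) ≤ Λ ^ 4 := by positivity
    have p0 : (0 : ℝ) < 2 ^ k := by positivity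
    rcases le_or_gt Q (2 ^ k) with c | c
    · rw [max_eq_left (by linarith)] at h1
      refine le_trans ?_ (mul_le_mul_of_nonneg_left (le_max_left _ _) z0)
      nlinarith [mul_le_mul_of_nonneg_left (hQ k c) h0]
    · have h4 : max (2 * (2 ^ k * 2)) (6 * Q - 2 ^ k * 2) ≤ 6 * Q - 2 ^ k * 2 :=
        max_le (by linarith) le_rfl
      refine le_trans ?_ (mul_le_mul_of_nonneg_left (le_max_right _ _) z0)
      nlinarith [mul_le_mul_of_nonneg_left (unc_le_one G (Λ := Λ) (S := S) k) h0,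
        mul_le_mul_of_nonneg_left h4 z0]

lemma go_err (hS : Fintype.card V < 2 ^ S) (e0 : 0 < ε) (e1 : ε < 1) (hΛ : 8 * S + 10 ≤ ε * Λ) :
    ∀ f k : ℕ, unc G Λ S (k + f) ≤ 1 / 4 →
      ex G (go V Λ S (f + 1) k) (fun g => if IsEstimate G ε g then 0 else 1) ≤
        (f + 1) * (Λ ^ 4 * (1 / Λ ^ 7)) + 1 / 4 := by
  have step : ∀ (f k : ℕ) (c : ℝ), 0 ≤ c →
      ex G (go V Λ S f (k + 1)) (fun g => if IsEstimate G ε g then 0 else 1) ≤ c →
      ex G (go V Λ S (f + 1) k) (fun g => if IsEstimate G ε g then 0 else 1) ≤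
        Λ ^ 4 * (1 / Λ ^ 7) + c * unc G Λ S k := by
    intro f k c c0 hc
    have h1 := seq_wrong G (β := 1 / Λ) (δ := 1 / Λ ^ 7) (N := fun i => ccdh G (xs Λ i))
      (plist V Λ (2 ^ k)) fun p hp => by
        obtain ⟨c, -, rfl⟩ := List.mem_map.1 hp
        exact (ex_trunc_le G _ _ (fun o => (wrong_bd _ _ o).1) (wrong_none _ _) _).trans
          (probe_sound G (lam_ge hS e1 hΛ).1 _ _ _)
    rw [plist_len] at h1
    rw [go, ex_bind, unc, ← ex_mul]
    refine le_trans (ex_mono G _ fun T => ?_) ((ex_add G _ _ _).trans_le (add_le_add h1 le_rfl))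
    by_cases c1 : Cov (Fintype.card V) Λ S T
    · simp only [if_pos c1, ex, mul_zero, add_zero]
      by_cases c2 : Bad (1 / Λ) (fun i => ccdh G (xs Λ i)) T
      · rw [if_pos c2]; split_ifs <;> simp
      · rw [if_neg c2, if_pos (outp_ok G hS e0 e1 hΛ c1 c2)]
    · simp only [if_neg c1, mul_one]
      refine hc.trans (le_add_of_nonneg_left ?_)
      split_ifs <;> simp
  intro f
  induction f with
  | zero =>
    intro k h
    have := step 0 k 1 zero_le_one (by simp only [go, ex]; split_ifs <;> simp)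
    simp only [add_zero] at h
    push_cast; linarith
  | succ f ih =>
    intro k h
    have h1 := ih (k + 1) (by rwa [show k + 1 + f = k + (f + 1) by ring])
    have h2 := step (f + 1) k _ (by positivity) h1
    have h3 := mul_le_mul_of_nonneg_left (unc_le_one G (Λ := Λ) (S := S) k)
      (show 0 ≤ (f + 1 : ℝ) * (Λ ^ 4 * (1 / Λ ^ 7)) + 1 / 4 by positivity)
    push_cast; linarith

lemma easy_all (hΛ : 19 ≤ Λ) : Easy G Λ S (4 * Fintype.card V * Λ ^ 9 + 2) := fun j =>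
  ⟨j, 0, 0, fun _ _ => ⟨le_rfl, by omega, by omega, by omega, by
    have := (dprobe_ok G (x := xs Λ j) (φ := 2 ^ 0) hΛ (by simp)).2 (Or.inl (by simp))
    have d0 : (0 : ℝ) ≤ 1 / Λ ^ 7 := by positivity
    rw [probe, if_pos rfl, show (2 : ℝ) / Λ ^ 7 = 1 / Λ ^ 7 + 1 / Λ ^ 7 by ring]
    linarith, by
    rw [probe, if_pos rfl, pow_zero]
    exact (dprobe_cost G le_rfl).trans_eq (by rw [div_one])⟩⟩

theorem go_solves (hS : Fintype.card V < 2 ^ S) (e0 : 0 < ε) (e1 : ε < 1)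
    (hΛ : 8 * S + 10 ≤ ε * Λ) : Solves (go V Λ S (13 * Λ + 1) 0) G ε := by
  obtain ⟨l1, l2⟩ := lam_ge hS e1 hΛ
  have l0 : (19 : ℝ) ≤ Λ := by exact_mod_cast l1
  have h1 := go_err G hS e0 e1 hΛ (13 * Λ) 0 (unc_le G l1 l2 (by positivity) (easy_all G l1) (by
    have a1 : Λ ≤ 2 ^ Λ := Nat.lt_two_pow_self.le
    have a2 : Fintype.card V ≤ 2 ^ Λ := hS.le.trans (Nat.pow_le_pow_right two_pos (by omega))
    have a3 : 64 ≤ 2 ^ Λ := (show 2 ^ 6 ≤ 2 ^ Λ from Nat.pow_le_pow_right two_pos (by omega))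
    have a4 : 1 ≤ Fintype.card V * Λ ^ 9 := Nat.mul_pos Fintype.card_pos (by positivity)
    have : 8 * (4 * Fintype.card V * Λ ^ 9 + 2) * Λ ^ 2 ≤ 2 ^ (0 + 13 * Λ) := calc
      _ ≤ 64 * (Fintype.card V * Λ ^ 9) * Λ ^ 2 := Nat.mul_le_mul_right _ (by linarith)
      _ ≤ 2 ^ Λ * (2 ^ Λ * (2 ^ Λ) ^ 9) * (2 ^ Λ) ^ 2 := by gcongr
      _ = _ := by ring
    exact_mod_cast this))
  have h2 : ((13 * Λ : ℕ) + 1 : ℝ) * (Λ ^ 4 * (1 / Λ ^ 7)) ≤ 1 / 12 := by
    rw [show (Λ : ℝ) ^ 4 * (1 / Λ ^ 7) = 1 / Λ ^ 3 by field_simp, mul_one_div,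
      div_le_div_iff₀ (by positivity) (by norm_num)]
    push_cast
    nlinarith [mul_le_mul l0 l0 (by norm_num) (by linarith)]
  have h3 : (ex G (go V Λ S (13 * Λ + 1) 0) fun g => if g ∈ {g | IsEstimate G ε g} then 1 else 0) =
      1 + -1 * ex G (go V Λ S (13 * Λ + 1) 0) fun g => if IsEstimate G ε g then 0 else 1 := by
    rw [← ex_mul, ← ex_const G (go V Λ S (13 * Λ + 1) 0) 1, ← ex_add]
    congr 1; funext g
    by_cases c : IsEstimate G ε g <;> simp [c, ex_const]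
  have h5 := run_eq_ex G (noCoin_go (V := V) (Λ := Λ) (S := S) (13 * Λ + 1) 0)
    {g | IsEstimate G ε g}
  show _ ≤ (run G _).toOuterMeasure {x | x.1 ∈ {g | IsEstimate G ε g}}
  rw [h5, h3]
  refine le_trans (le_of_eq ?_) (ENNReal.ofReal_le_ofReal (show (2 / 3 : ℝ) ≤ _ by linarith))
  rw [ENNReal.ofReal_div_of_pos (by norm_num)]
  simp

theorem go_queries (h1 : 19 ≤ Λ) (h2 : 8 * S + 10 < Λ) {c : ℝ} (c1 : 1 ≤ c) (hE : Easy G Λ S c)
    (f : ℕ) : expectedQueries (go V Λ S f 0) G ≤ ENNReal.ofReal (48 * Λ ^ 6 * c) := by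
  have l0 : (19 : ℝ) ≤ Λ := by exact_mod_cast h1
  rw [expectedQueries, expected_eq G (noCoin_go f 0)]
  refine ENNReal.ofReal_le_ofReal ((go_cost G (Q := 8 * c * Λ ^ 2)
    (fun k hk => unc_le G h1 h2 (by linarith) hE hk) f 0).trans ?_)
  have a1 : (1 : ℝ) ≤ c * Λ ^ 2 := one_le_mul_of_one_le_of_one_le c1 (one_le_pow₀ (by linarith))
  rw [show (48 : ℝ) * Λ ^ 6 * c = Λ ^ 4 * (48 * (c * Λ ^ 2)) by ring]
  exact mul_le_mul_of_nonneg_left (max_le (by linarith) (by linarith)) (by positivity)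

end Pool.Agent.MP_16e32a_lc
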